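import Pool.Agent.Helper24.SQ.Ten

/-!
Semistability of tensor products, any finite number of factors.
-/

set_option linter.unusedSectionVars false

open Polynomial Module Pointwise

namespace SQ24

open Pool.Agent.SQ

variable {k K : Type*} [Field k] [Field K] [Algebra k K]

attribute [local instance] Polynomial.algebra

variable {I : Type*} [Fintype I]

/-- **Semistability of tensor products.** The slopes of semistable spaces add up. -/
theorem tenG [CharZero k] {Γ : Type*} [Fintype Γ] (ω : I → K → ℝ) (hω : ∀ i, RV k (ω i)) (c : Γ → I → ℝ)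
    (V : Γ → Submodule k K) [∀ g, FiniteDimensional k (V g)] (hV : ∀ g, V g ≠ ⊥)
    {N : ℕ} (hN : 0 < N) (ha : ∀ g i, ∀ x ∈ V g, x ≠ 0 → 0 ≤ ω i x + c g i)
    (hss : ∀ g, ∀ E ≤ V g, finrank k (V g) * ∑ i, SN (hω i) N (c g i) E ≤
      (∑ i, SN (hω i) N (c g i) (V g)) * finrank k E)
    (m : Γ → ℕ) :
    (finrank k ↥(∏ g, V g ^ m g) : ℝ) * ∑ g, m g * ((∑ i, (SN (hω i) N (c g i) (V g) : ℝ)) / finrank k (V g)) ≤
      ∑ i, (SN (hω i) N (∑ g, m g * c g i) (∏ g, V g ^ m g) : ℝ) +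
      finrank k ↥(∏ g, V g ^ m g) * ∑ g, (m g : ℝ) * (finrank k (V g) * Fintype.card I + 1) := by
  classical
  obtain ⟨t, ht⟩ : ∃ t : I → k, Function.Injective t := by
    refine ⟨fun i => ((Fintype.equivFin I i : ℕ) : k), fun i j hij => ?_⟩
    have h1 : ((Fintype.equivFin I i : Fin _) : ℕ) = (Fintype.equivFin I j : Fin _) := Nat.cast_injective hij
    exact (Fintype.equivFin I).injective (Fin.ext h1)
  obtain ⟨r, hrr⟩ : ∃ r : Γ → ℕ, ∀ g, r g = finrank k (V g) := ⟨_, fun _ => rfl⟩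
  have hr0 : ∀ g, 0 < r g := by
    intro g
    rw [hrr, Module.finrank_pos_iff_exists_ne_zero]
    obtain ⟨x, hx, hx0⟩ := Submodule.exists_mem_ne_zero_of_ne_bot (hV g)
    exact ⟨⟨x, hx⟩, fun h => hx0 (congrArg Subtype.val h)⟩
  -- balanced bases
  have step : ∀ g, ∃ (M n : ℕ) (Z : Set K[X]), Z.Finite ∧ (∀ z ∈ Z, Lr hω N t (c g) M z) ∧
      (∀ z ∈ Z, z ∈ PV (V g) (n + 1)) ∧ V g ≤ cs k Z ∧
      r g * n + ∑ i, SN (hω i) N (c g i) (V g) ≤ r g * (Fintype.card I * M + r g * Fintype.card I + 1) := by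
    intro g
    obtain ⟨M, hM⟩ := Sw_eq hω N (c g) (V g) hN
    have s1 := hM M le_rfl
    obtain ⟨n1, α1, f1, g1, hg1, -, hc1, hd1⟩ := bal' (F := FF hω N (c g)) (M := M) (U := V g) ht (FF_anti hω N (c g))
      (by rw [← hrr]; exact hr0 g) (fun E hE => by
        rw [s1 E hE, s1 (V g) le_rfl]
        exact hss g E hE)
    rw [s1 (V g) le_rfl, ← hrr] at hd1
    refine ⟨M, n1, Set.range g1, Set.finite_range _, ?_, ?_, fun x hx => hc1 x hx, hd1⟩
    · rintro _ ⟨j, rfl⟩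
      exact Lr.of_mem (ha g) (hg1.mem j)
    · rintro _ ⟨j, rfl⟩
      exact (hg1.mem j).2
  choose M n Z hZ1 hZ2 hZ3 hZ4 hZ5 using step
  -- products
  have prd : ∀ s : Finset Γ, ∃ Y : Set K[X], Y.Finite ∧
      (∀ z ∈ Y, Lr hω N t (fun i => ∑ g ∈ s, m g * c g i) ((∑ g ∈ s, m g * M g : ℕ) : ℝ) z) ∧
      (∀ z ∈ Y, z ∈ PV (∏ g ∈ s, V g ^ m g) (∑ g ∈ s, m g * n g + 1)) ∧ ∏ g ∈ s, V g ^ m g ≤ cs k Y := by
    intro s
    induction s using Finset.induction_on with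
    | empty =>
      refine ⟨{1}, Set.finite_singleton _, ?_, ?_, ?_⟩
      · rintro z rfl
        simpa using (Lr.one (hω := hω) (N := N) (t := t))
      · rintro z rfl
        have := PV_pow (k := k) (K := K) (V := ⊥) (d := 0) (Z := ∅) (by simp) 0 1 (by simp)
        simpa using this
      · have := cs_pow (k := k) (K := K) (U := ⊥) (Z := ∅) bot_le 0
        rw [pow_zero, pow_zero] at this
        rwa [Finset.prod_empty, Set.singleton_one]
    | insert g s hgs ih =>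
      obtain ⟨Y, h1, h2, h3, h4⟩ := ih
      refine ⟨Z g ^ m g * Y, (finite_pow (hZ1 g) (m g)).mul h1, ?_, ?_, ?_⟩
      · intro z hz
        obtain ⟨a, ha1, b, hb1, rfl⟩ := Set.mem_mul.1 hz
        have h5 := (Lr.pow hN (hZ2 g) (m g) a ha1).mul hN (h2 b hb1)
        have h6 : (fun i => ∑ x ∈ insert g s, (m x : ℝ) * c x i) = fun i => m g * c g i + ∑ x ∈ s, (m x : ℝ) * c x i := by
          funext i
          rw [Finset.sum_insert hgs]
        rw [h6, Finset.sum_insert hgs, Nat.cast_add, Nat.cast_mul]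
        exact h5
      · intro z hz
        obtain ⟨a, ha1, b, hb1, rfl⟩ := Set.mem_mul.1 hz
        rw [Finset.prod_insert hgs, Finset.sum_insert hgs]
        exact PV_mul (PV_pow (hZ3 g) (m g) a ha1) (h3 b hb1)
      · rw [Finset.prod_insert hgs]
        exact (mul_le_mul' (cs_pow (hZ4 g) (m g)) h4).trans (cs_mul _ _)
  obtain ⟨Y, h1, h2, h3, h4⟩ := prd Finset.univ
  obtain ⟨R, hR⟩ : ∃ R, R = ∏ g, V g ^ m g := ⟨_, rfl⟩
  rw [← hR] at h3 h4 ⊢
  have hfg : ∀ s : Finset Γ, (∏ g ∈ s, V g ^ m g).FG := by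
    intro s
    induction s using Finset.induction_on with
    | empty =>
      rw [Finset.prod_empty]
      exact ⟨{1}, by rw [Finset.coe_singleton, Submodule.one_eq_span]⟩
    | insert g s hgs ih =>
      rw [Finset.prod_insert hgs]
      exact ((Module.Finite.iff_fg.1 (inferInstance : FiniteDimensional k (V g))).pow (m g)).mul ih
  have hRfg : R.FG := by
    rw [hR]
    exact hfg _
  have : FiniteDimensional k R := Module.Finite.iff_fg.2 hRfg
  have hmem : ∀ z ∈ Y, z ∈ W t (∑ g, m g * M g) (FF hω N fun i => ∑ g, m g * c g i) R (∑ g, m g * n g + 1) :=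
    fun z hz => ⟨(h2 z hz).lat, h3 z hz⟩
  have key := count ht (FF_anti hω N fun i => ∑ g, m g * c g i) h1 hmem h4
  have hSw := Sw_le_SN hω N (fun i => ∑ g, m g * c g i) R hN (∑ g, m g * M g)
  obtain ⟨D, hD⟩ : ∃ D, D = finrank k R := ⟨_, rfl⟩
  obtain ⟨S, hS⟩ : ∃ S, S = ∑ i, SN (hω i) N (∑ g, m g * c g i) R := ⟨_, rfl⟩
  obtain ⟨q, hq⟩ : ∃ q, q = Fintype.card I := ⟨_, rfl⟩
  have hSR : ∑ i, (SN (hω i) N (∑ g, m g * c g i) R : ℝ) = S := by
    rw [hS]
    push_cast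
    rfl
  rw [hSR, ← hD, ← hq]
  rw [← hS] at hSw
  rw [← hD, ← hq] at key
  have k1 : q * (∑ g, m g * M g) * D ≤ (∑ g, m g * n g) * D + S := key.trans (Nat.add_le_add_left hSw _)
  have k2 : (q : ℝ) * (∑ g, (m g : ℝ) * M g) * D ≤ (∑ g, (m g : ℝ) * n g) * D + S := by exact_mod_cast k1
  have k3 : ∀ g, (n g : ℝ) + (∑ i, (SN (hω i) N (c g i) (V g) : ℝ)) / finrank k (V g) ≤
      q * M g + finrank k (V g) * q + 1 := by
    intro g
    have hr1 : (0 : ℝ) < finrank k (V g) := by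
      rw [← hrr]
      exact_mod_cast hr0 g
    have h5 := hZ5 g
    rw [hrr, ← hq] at h5
    have h6 : (finrank k (V g) : ℝ) * n g + ∑ i, (SN (hω i) N (c g i) (V g) : ℝ) ≤
        finrank k (V g) * (q * M g + finrank k (V g) * q + 1) := by exact_mod_cast h5
    have h7 : (n g : ℝ) + (∑ i, (SN (hω i) N (c g i) (V g) : ℝ)) / finrank k (V g) =
        (finrank k (V g) * n g + ∑ i, (SN (hω i) N (c g i) (V g) : ℝ)) / finrank k (V g) := by
      field_simp
    rw [h7, div_le_iff₀ hr1, mul_comm (_ + _ + _)]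
    exact h6
  have k4 : ∑ g, (m g : ℝ) * ((n g : ℝ) + (∑ i, (SN (hω i) N (c g i) (V g) : ℝ)) / finrank k (V g)) ≤
      ∑ g, (m g : ℝ) * (q * M g + finrank k (V g) * q + 1) :=
    Finset.sum_le_sum fun g _ => mul_le_mul_of_nonneg_left (k3 g) (Nat.cast_nonneg _)
  have k5 : ∑ g, (m g : ℝ) * ((n g : ℝ) + (∑ i, (SN (hω i) N (c g i) (V g) : ℝ)) / finrank k (V g)) =
      ∑ g, (m g : ℝ) * n g + ∑ g, (m g : ℝ) * ((∑ i, (SN (hω i) N (c g i) (V g) : ℝ)) / finrank k (V g)) := by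
    rw [← Finset.sum_add_distrib]
    exact Finset.sum_congr rfl fun g _ => mul_add _ _ _
  have k6 : ∑ g, (m g : ℝ) * (q * M g + finrank k (V g) * q + 1) =
      q * ∑ g, (m g : ℝ) * M g + ∑ g, (m g : ℝ) * (finrank k (V g) * q + 1) := by
    rw [Finset.mul_sum, ← Finset.sum_add_distrib]
    exact Finset.sum_congr rfl fun g _ => by ring
  rw [k5, k6] at k4
  have k7 := mul_le_mul_of_nonneg_left k4 (Nat.cast_nonneg (α := ℝ) D)
  linarith

end SQ24
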