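import Pool.Agent.Helper24.SQ.Sat

/-!
Subspace theorem for quadratic points (MP_71c16a_nt), block T: elements of small degree of the lattice of a semistable space.
-/

set_option linter.unusedSectionVars false

open Polynomial Module

namespace SQ24

variable {k K : Type*} [Field k] [Field K] [Algebra k K] {I : Type*} [Fintype I]

attribute [local instance] Polynomial.algebra

theorem natDegree_pi_le (t : I → k) : ((∏ i, (X - C (t i)) : k[X])).natDegree ≤ Fintype.card I := by
  refine (natDegree_prod_le _ _).trans ?_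
  simp

section

variable {t : I → k} {M : ℕ} {F : I → ℕ → Submodule k K} {U : Submodule k K} {n : ℕ}

variable (t M F U n) in
/-- the elements of the lattice of degree `< n` with coefficients in `U` -/
noncomputable def W : Submodule k K[X] := Lat t M F ⊓ PV U n

variable (k K n) in
/-- the coefficient -/
noncomputable def lcL : K[X] →ₗ[k] K where
  toFun u := u.coeff n
  map_add' := fun u v => coeff_add u v n
  map_smul' := fun c u => coeff_smul c u n

variable (t M F U n) in
/-- the leading coefficients in degree `n` -/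
noncomputable def Ld : Submodule k K := (W t M F U (n + 1)).map (lcL k K n)

theorem mem_Ld {c : K} : c ∈ Ld t M F U n ↔ ∃ u ∈ W t M F U (n + 1), u.coeff n = c := Iff.rfl

theorem Ld_le : Ld t M F U n ≤ U := by
  rintro _ ⟨u, hu, rfl⟩
  exact hu.2.1 n

instance [FiniteDimensional k U] : FiniteDimensional k (W t M F U n) :=
  Submodule.finiteDimensional_inf_right _ _

instance [FiniteDimensional k U] : FiniteDimensional k (Ld t M F U n) :=
  Submodule.finiteDimensional_of_le Ld_le

theorem mem_W_of {u : K[X]} (hu : u ∈ W t M F U (n + 1)) (h0 : u.coeff n = 0) : u ∈ W t M F U n := by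
  refine ⟨hu.1, hu.2.1, fun a ha => ?_⟩
  rcases Nat.lt_or_ge n a with h | h
  · exact hu.2.2 a h
  · rw [show a = n by omega, h0]

theorem W_mono {n' : ℕ} (h : n ≤ n') : W t M F U n ≤ W t M F U n' := fun _ hu => ⟨hu.1, PV_mono le_rfl h hu.2⟩

theorem W_zero {u : K[X]} (hu : u ∈ W t M F U 0) : u = 0 := by
  ext a
  rw [hu.2.2 a (Nat.zero_le a), coeff_zero]

theorem finrank_W_succ [FiniteDimensional k U] :
    finrank k (W t M F U (n + 1)) = finrank k (W t M F U n) + finrank k (Ld t M F U n) := by
  have h1 := LinearMap.finrank_range_add_finrank_ker ((lcL k K n).domRestrict (W t M F U (n + 1)))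
  rw [LinearMap.range_domRestrict] at h1
  have h2 : finrank k (LinearMap.ker ((lcL k K n).domRestrict (W t M F U (n + 1)))) = finrank k (W t M F U n) := by
    rw [← Submodule.finrank_map_subtype_eq (W t M F U (n + 1))]
    have h3 : Submodule.map (W t M F U (n + 1)).subtype (LinearMap.ker ((lcL k K n).domRestrict (W t M F U (n + 1)))) =
        W t M F U n := by
      ext u
      constructor
      · rintro ⟨v, hv, rfl⟩
        exact mem_W_of v.2 (LinearMap.mem_ker.1 hv)
      · intro hu
        exact ⟨⟨u, W_mono (Nat.le_succ n) hu⟩, LinearMap.mem_ker.2 (hu.2.2 n le_rfl), rfl⟩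
    rw [h3]
  rw [h2] at h1
  rw [← h1, add_comm]
  rfl

variable (hF : ∀ i j j', j ≤ j' → F i j' ≤ F i j)

include hF

theorem smul_Lat (p : k[X]) {u : K[X]} (hu : u ∈ Lat t M F) : p • u ∈ Lat t M F := by
  intro i l hl
  rw [smul_eq', tc_mul]
  refine (F i (M - l)).sum_mem fun x hx => ?_
  rw [tc_map, ← Algebra.smul_def]
  have h1 := Finset.HasAntidiagonal.mem_antidiagonal.1 hx
  exact (F i (M - l)).smul_mem _ (hF i _ _ (by omega) (hu i x.2 (by omega)))

theorem smul_W (p : k[X]) {u : K[X]} (hu : u ∈ W t M F U n) {d : ℕ} (hd : ∀ a, d < a → p.coeff a = 0) :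
    p • u ∈ W t M F U (n + d) := by
  refine ⟨smul_Lat hF p hu.1, fun a => ?_, fun a ha => ?_⟩
  · rw [coeff_smul']
    exact U.sum_mem fun x _ => U.smul_mem _ (hu.2.1 _)
  · rw [coeff_smul']
    refine Finset.sum_eq_zero fun x hx => ?_
    have h1 := Finset.HasAntidiagonal.mem_antidiagonal.1 hx
    by_cases h2 : d < x.1
    · rw [hd _ h2, zero_smul]
    · rw [hu.2.2 x.2 (by omega), smul_zero]

theorem coeff_X_smul (u : K[X]) (a : ℕ) : ((X : k[X]) • u).coeff (a + 1) = u.coeff a := by
  rw [smul_eq', map_X, coeff_X_mul]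

theorem X_smul_W {u : K[X]} (hu : u ∈ W t M F U n) : (X : k[X]) • u ∈ W t M F U (n + 1) :=
  smul_W hF X hu fun a ha => by rw [coeff_X, if_neg (by omega)]

theorem Ld_mono : Ld t M F U n ≤ Ld t M F U (n + 1) := by
  rintro _ ⟨u, hu, rfl⟩
  exact ⟨(X : k[X]) • u, X_smul_W hF hu, coeff_X_smul hF u n⟩

theorem Ld_mono' {m : ℕ} (h : n ≤ m) : Ld t M F U n ≤ Ld t M F U m := by
  induction m, h using Nat.le_induction with
  | base => exact le_rfl
  | succ m _ ih => exact ih.trans (Ld_mono hF)

theorem der_Lat {u : K[X]} (hu : u ∈ Lat t M F) : (∏ i, (X - C (t i)) : k[X]) • derivative u ∈ Lat t M F := by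
  classical
  intro i l hl
  rw [smul_eq', tc_mul]
  refine (F i (M - l)).sum_mem fun x hx => ?_
  have h1 := Finset.HasAntidiagonal.mem_antidiagonal.1 hx
  rw [tc_map]
  by_cases h2 : x.1 = 0
  · have h3 : tc (K := k) (t i) x.1 (∏ i, (X - C (t i))) = 0 := by
      rw [tc, h2, taylor_coeff_zero, eval_prod]
      apply Finset.prod_eq_zero (Finset.mem_univ i)
      simp
    rw [h3, map_zero, zero_mul]
    exact (F i (M - l)).zero_mem
  · rw [← Algebra.smul_def]
    refine (F i (M - l)).smul_mem _ ?_
    rw [tc_derivative]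
    have h3 : ((x.2 : K) + 1) * tc (t i) (x.2 + 1) u = ((x.2 : k) + 1) • tc (t i) (x.2 + 1) u := by
      rw [Algebra.smul_def, map_add, map_natCast, map_one]
    rw [h3]
    exact (F i (M - l)).smul_mem _ (hF i _ _ (by omega) (hu i (x.2 + 1) (by omega)))

theorem der_W {u : K[X]} (hu : u ∈ W t M F U (n + 1)) :
    (∏ i, (X - C (t i)) : k[X]) • derivative u ∈ W t M F U (n + Fintype.card I + 1) := by
  have h1 := der_Lat hF hu.1
  have h2 : ∀ a, (derivative u).coeff a ∈ U := by
    intro a
    rw [coeff_derivative]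
    have h3 : u.coeff (a + 1) * ((a : K) + 1) = ((a : k) + 1) • u.coeff (a + 1) := by
      rw [Algebra.smul_def, map_add, map_natCast, map_one, mul_comm]
    rw [h3]
    exact U.smul_mem _ (hu.2.1 _)
  refine ⟨h1, fun a => ?_, fun a ha => ?_⟩
  · rw [coeff_smul']
    exact U.sum_mem fun x _ => U.smul_mem _ (h2 _)
  · rw [coeff_smul']
    refine Finset.sum_eq_zero fun x hx => ?_
    have h3 := Finset.HasAntidiagonal.mem_antidiagonal.1 hx
    by_cases h4 : Fintype.card I < x.1
    · rw [coeff_eq_zero_of_natDegree_lt (lt_of_le_of_lt (natDegree_pi_le t) h4), zero_smul]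
    · rw [coeff_derivative, hu.2.2 (x.2 + 1) (by omega), zero_mul, smul_zero]

end

section

variable (t : I → k) (M : ℕ) (F : I → ℕ → Submodule k K) (U : Submodule k K) (n : ℕ)

/-- good families -/
structure Gd {α : Type*} [Fintype α] (g : α → K[X]) : Prop where
  mem : ∀ j, g j ∈ W t M F U (n + 1)
  li : LinearIndependent k fun j => (g j).coeff n
  card : Fintype.card α = finrank k (Ld t M F U n)
  sat : ∀ u ∈ W t M F U (n + 1), u ∈ Sat k (Set.range g)

end

section

variable {t : I → k} {M : ℕ} {F : I → ℕ → Submodule k K} {U : Submodule k K} [FiniteDimensional k U] {n : ℕ}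

theorem Gd.of {α : Type*} [Fintype α] {g : α → K[X]} (mem : ∀ j, g j ∈ W t M F U (n + 1))
    (li : LinearIndependent k fun j => (g j).coeff n) (card : Fintype.card α = finrank k (Ld t M F U n))
    (sat : ∀ u ∈ W t M F U n, u ∈ Sat k (Set.range g)) : Gd t M F U n g := by
  refine ⟨mem, li, card, fun u hu => ?_⟩
  have h1 : Submodule.span k (Set.range fun j => (g j).coeff n) = Ld t M F U n := by
    apply Submodule.eq_of_le_of_finrank_eq
    · rw [Submodule.span_le]
      rintro _ ⟨j, rfl⟩
      exact ⟨g j, mem j, rfl⟩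
    · rw [finrank_span_eq_card li, card]
  have h2 : u.coeff n ∈ Submodule.span k (Set.range fun j => (g j).coeff n) := by
    rw [h1]
    exact ⟨u, hu, rfl⟩
  obtain ⟨c, hc⟩ := (Submodule.mem_span_range_iff_exists_fun k).1 h2
  obtain ⟨v, hv⟩ : ∃ v, v = u - ∑ j, c j • g j := ⟨_, rfl⟩
  have h3 : v ∈ W t M F U (n + 1) := by
    rw [hv]
    exact sub_mem hu (Submodule.sum_mem _ fun j _ => Submodule.smul_mem _ _ (mem j))
  have h4 : v.coeff n = 0 := by
    rw [hv, coeff_sub, finsetSum_coeff, ← hc, sub_eq_zero]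
    refine Finset.sum_congr rfl fun j _ => ?_
    rw [coeff_smul]
  have h5 := sat v (mem_W_of h3 h4)
  have h6 : u = v + ∑ j, c j • g j := by rw [hv, sub_add_cancel]
  rw [h6]
  refine add_mem h5 (Submodule.sum_mem _ fun j _ => ?_)
  rw [← C_smul']
  exact Submodule.smul_mem _ _ (subset_Sat _ ⟨j, rfl⟩)

variable (hF : ∀ i j j', j ≤ j' → F i j' ≤ F i j)

include hF

theorem exists_Gd (n : ℕ) : ∃ (α : Type) (_ : Fintype α) (g : α → K[X]), Gd t M F U n g := by
  induction n with
  | zero =>
    have h1 := (finBasis k (Ld t M F U 0)).linearIndependent.map' (Ld t M F U 0).subtype (Submodule.ker_subtype _)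
    choose g hg hg0 using fun j => mem_Ld.1 (finBasis k (Ld t M F U 0) j).2
    refine ⟨Fin (finrank k (Ld t M F U 0)), inferInstance, g, Gd.of hg ?_ (Fintype.card_fin _) fun u hu => ?_⟩
    · simp only [hg0]
      exact h1
    · rw [W_zero hu]
      exact zero_mem _
  | succ n ih =>
    obtain ⟨α, _, g, hg⟩ := ih
    obtain ⟨C', hC'⟩ := Submodule.exists_isCompl (Ld t M F U n)
    obtain ⟨D, hD⟩ : ∃ D, D = C' ⊓ Ld t M F U (n + 1) := ⟨_, rfl⟩
    have hDL : D ≤ Ld t M F U (n + 1) := by rw [hD]; exact inf_le_right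
    have : FiniteDimensional k D := Submodule.finiteDimensional_of_le hDL
    have h1 := (finBasis k D).linearIndependent.map' D.subtype (Submodule.ker_subtype _)
    choose g' hg' hg0' using fun j => mem_Ld.1 (hDL (finBasis k D j).2)
    have hdis : Disjoint (Ld t M F U n) D := by
      rw [hD]
      exact hC'.disjoint.mono_right inf_le_left
    have hsup : Ld t M F U n ⊔ D = Ld t M F U (n + 1) := by
      rw [hD, ← sup_inf_assoc_of_le _ (Ld_mono hF), hC'.sup_eq_top, top_inf_eq]
    have hcard : finrank k (Ld t M F U n) + finrank k D = finrank k (Ld t M F U (n + 1)) := by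
      have h2 := Submodule.finrank_sup_add_finrank_inf_eq (Ld t M F U n) D
      rw [hsup, hdis.eq_bot, finrank_bot, add_zero] at h2
      exact h2.symm
    refine ⟨α ⊕ Fin (finrank k D), inferInstance, Sum.elim (fun j => (X : k[X]) • g j) g', Gd.of ?_ ?_ ?_ ?_⟩
    · rintro (j | j)
      · exact X_smul_W hF (hg.mem j)
      · exact hg' j
    · have h2 : (fun j => (Sum.elim (fun j => (X : k[X]) • g j) g' j).coeff (n + 1)) =
          Sum.elim (fun j => (g j).coeff n) (fun j => ((finBasis k D j : D) : K)) := by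
        funext j
        rcases j with j | j
        · exact coeff_X_smul hF _ _
        · exact hg0' j
      rw [h2]
      refine hg.li.sum_type h1 ?_
      refine hdis.mono ?_ ?_
      · rw [Submodule.span_le]
        rintro _ ⟨j, rfl⟩
        exact ⟨g j, hg.mem j, rfl⟩
      · rw [Submodule.span_le]
        rintro _ ⟨j, rfl⟩
        exact (finBasis k D j).2
    · rw [Fintype.card_sum, hg.card, Fintype.card_fin, hcard]
    · intro u hu
      refine Sat_le ?_ (hg.sat u hu)
      rintro _ ⟨j, rfl⟩
      refine of_smul_Sat (p := X) X_ne_zero (subset_Sat _ ⟨Sum.inl j, rfl⟩)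

/-- no new leading coefficients -/
theorem Gd.same {α : Type*} [Fintype α] {g : α → K[X]} (hg : Gd t M F U n g) (s : ℕ)
    (h : finrank k (Ld t M F U (n + s)) = finrank k (Ld t M F U n)) :
    Gd t M F U (n + s) (fun j => (X ^ s : k[X]) • g j) := by
  induction s with
  | zero =>
    simp only [pow_zero, one_smul]
    exact hg
  | succ s ih =>
    have h1 : finrank k (Ld t M F U (n + s)) = finrank k (Ld t M F U n) := by
      apply le_antisymm
      · rw [← h]
        exact Submodule.finrank_mono (Ld_mono hF)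
      · exact Submodule.finrank_mono (Ld_mono' hF (Nat.le_add_right n s))
    have h2 := ih h1
    have h3 : ∀ j, (X ^ (s + 1) : k[X]) • g j = (X : k[X]) • ((X ^ s : k[X]) • g j) := by
      intro j
      rw [pow_succ', mul_smul]
    simp only [h3]
    refine Gd.of (n := n + s + 1) (fun j => X_smul_W hF (h2.mem j)) ?_ ?_ ?_
    · have h4 : (fun j => ((X : k[X]) • ((X ^ s : k[X]) • g j)).coeff (n + s + 1)) =
          fun j => ((X ^ s : k[X]) • g j).coeff (n + s) := funext fun j => coeff_X_smul hF _ _
      rw [h4]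
      exact h2.li
    · rw [hg.card, ← h]
      rfl
    · intro u hu
      refine Sat_le ?_ (h2.sat u hu)
      rintro _ ⟨j, rfl⟩
      exact of_smul_Sat (p := X) X_ne_zero (subset_Sat _ ⟨j, rfl⟩)

/-- the polynomials that depend on the elements of degree `≤ n` are those over a subspace -/
theorem Gd.const [CharZero k] {α : Type*} [Fintype α] {g : α → K[X]} (hg : Gd t M F U n g)
    (h : finrank k (Ld t M F U (n + Fintype.card I)) = finrank k (Ld t M F U n)) :
    ∀ u ∈ Sat k (Set.range g), ∀ a, C (u.coeff a) ∈ Sat k (Set.range g) := by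
  have h1 := hg.same hF _ h
  intro u hu
  refine der_const (S := Sat k (Set.range g)) (der_Sat (q := ∏ i, (X - C (t i))) ?_ ?_) (u.natDegree + 1) u hu
    (fun a ha => coeff_eq_zero_of_natDegree_lt (by omega))
  · exact Finset.prod_ne_zero_iff.2 fun i _ => X_sub_C_ne_zero _
  · rintro _ ⟨j, rfl⟩
    have h2 := h1.sat _ (der_W hF (hg.mem j))
    refine Sat_le ?_ h2
    rintro _ ⟨j', rfl⟩
    exact Submodule.smul_mem _ _ (subset_Sat _ ⟨j', rfl⟩)

end

end SQ24
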