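import Pool.Agent.Helper24.SQ.Bal

/-!
Subspace theorem for quadratic points (MP_71c16a_nt), block T: elements of small degree of the lattice of a semistable space,
the theorem.
-/

set_option linter.unusedSectionVars false

open Polynomial Module

namespace SQ24

variable {k K : Type*} [Field k] [Field K] [Algebra k K] {I : Type*} [Fintype I]

attribute [local instance] Polynomial.algebra

/-- the weight -/
noncomputable def Sw (M : ℕ) (F : I → ℕ → Submodule k K) (V : Submodule k K) : ℕ :=
  ∑ i, ∑ j ∈ Finset.range M, finrank k (F i (j + 1) ⊓ V : Submodule k K)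

theorem Sw_le (M : ℕ) (F : I → ℕ → Submodule k K) (V : Submodule k K) [FiniteDimensional k V] :
    Sw M F V ≤ Fintype.card I * M * finrank k V := by
  have h1 : Sw M F V ≤ ∑ _i : I, ∑ _j ∈ Finset.range M, finrank k V :=
    Finset.sum_le_sum fun i _ => Finset.sum_le_sum fun j _ => Submodule.finrank_mono inf_le_right
  refine h1.trans (le_of_eq ?_)
  simp only [Finset.sum_const, Finset.card_range, Finset.card_univ, smul_eq_mul]
  ring

variable {t : I → k} {M : ℕ} {F : I → ℕ → Submodule k K} {U : Submodule k K} [FiniteDimensional k U]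

/-- **Elements of small degree.** -/
theorem bal' [CharZero k] (ht : Function.Injective t) (hF : ∀ i j j', j ≤ j' → F i j' ≤ F i j) (hU : 0 < finrank k U)
    (hss : ∀ V ≤ U, finrank k U * Sw M F V ≤ Sw M F U * finrank k V) :
    ∃ (n : ℕ) (α : Type) (_ : Fintype α) (g : α → K[X]), Gd t M F U n g ∧ Fintype.card α = finrank k U ∧
      (∀ c ∈ U, C c ∈ Sat k (Set.range g)) ∧
      finrank k U * n + Sw M F U ≤ finrank k U * (Fintype.card I * M + finrank k U * Fintype.card I + 1) := by
  classical
  obtain ⟨r, hr⟩ : ∃ r, r = finrank k U := ⟨_, rfl⟩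
  obtain ⟨c, hc⟩ : ∃ c, c = Fintype.card I := ⟨_, rfl⟩
  obtain ⟨T, hT⟩ : ∃ T, T = Sw M F U := ⟨_, rfl⟩
  have hTle : T ≤ c * M * r := by
    rw [hT, hc, hr]
    exact Sw_le M F U
  rw [← hr] at hU
  rw [← hr, ← hc, ← hT]
  -- the first degree
  obtain ⟨n0, h1, h2⟩ : ∃ n0, r * (c * M) ≤ r * n0 + T ∧ r * n0 + T ≤ r * (c * M) + r := by
    have hex : ∃ n0, r * (c * M) ≤ r * n0 + T := ⟨c * M, Nat.le_add_right _ _⟩
    refine ⟨Nat.find hex, Nat.find_spec hex, ?_⟩
    rcases Nat.eq_zero_or_pos (Nat.find hex) with h3 | h3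
    · rw [h3]
      nlinarith
    · obtain ⟨m, hm⟩ : ∃ m, Nat.find hex = m + 1 := ⟨Nat.find hex - 1, by omega⟩
      have h4 := Nat.find_min hex (m := m) (by omega)
      rw [hm]
      push Not at h4
      nlinarith
  -- the degree
  obtain ⟨j, hj, hjeq⟩ : ∃ j, j ≤ r ∧ finrank k (Ld t M F U (n0 + j * c + c)) = finrank k (Ld t M F U (n0 + j * c)) := by
    by_contra hcon
    push Not at hcon
    have h3 : ∀ j, j ≤ r + 1 → j ≤ finrank k (Ld t M F U (n0 + j * c)) := by
      intro j
      induction j with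
      | zero => intro _; exact Nat.zero_le _
      | succ j ih =>
        intro hj
        have h4 := ih (by omega)
        have h5 := hcon j (by omega)
        have h6 : finrank k (Ld t M F U (n0 + j * c)) ≤ finrank k (Ld t M F U (n0 + j * c + c)) :=
          Submodule.finrank_mono (Ld_mono' hF (Nat.le_add_right _ _))
        have h7 : n0 + (j + 1) * c = n0 + j * c + c := by ring
        rw [h7]
        omega
    have h4 := h3 (r + 1) le_rfl
    have h5 : finrank k (Ld t M F U (n0 + (r + 1) * c)) ≤ r := by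
      rw [hr]
      exact Submodule.finrank_mono Ld_le
    omega
  obtain ⟨n, hn⟩ : ∃ n, n = n0 + j * c := ⟨_, rfl⟩
  rw [← hn, hc] at hjeq
  obtain ⟨α, i1, g, hg⟩ := exists_Gd (t := t) (M := M) (U := U) hF n
  have hconst := hg.const hF hjeq
  obtain ⟨V, hV⟩ : ∃ V, V = cs k (Set.range g) := ⟨_, rfl⟩
  have hVU : V ≤ U := by
    rw [hV]
    refine cs_le ?_
    rintro _ ⟨l, rfl⟩
    exact (hg.mem l).2.1
  have : FiniteDimensional k V := Submodule.finiteDimensional_of_le hVU
  obtain ⟨ρ, hρ⟩ : ∃ ρ, ρ = finrank k V := ⟨_, rfl⟩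
  have hρl : ρ ≤ finrank k (Ld t M F U n) := by
    rw [hρ, ← hg.card]
    refine (finrank_le_card (Z := Set.range g) (le_of_eq hV)).trans ?_
    exact Fintype.card_le_of_surjective (Set.rangeFactorization g) Set.rangeFactorization_surjective
  have hWW : W t M F U (n + 1) ≤ W t M F V (n + 1) := by
    intro u hu
    refine ⟨hu.1, fun a => ?_, hu.2.2⟩
    rw [hV, mem_cs]
    exact hconst u (hg.sat u hu) a
  have hLL : ∀ s, finrank k (Ld t M F U n) ≤ finrank k (Ld t M F V (n + s)) := by
    intro s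
    refine Submodule.finrank_mono ?_
    refine le_trans ?_ (Ld_mono' hF (Nat.le_add_right n s))
    rintro _ ⟨u, hu, rfl⟩
    exact ⟨u, hWW hu, rfl⟩
  have hgrow : ∀ s, finrank k (W t M F V (n + 1)) + s * ρ ≤ finrank k (W t M F V (n + 1 + s)) := by
    intro s
    induction s with
    | zero => simp
    | succ s ih =>
      have h3 := finrank_W_succ (t := t) (M := M) (F := F) (U := V) (n := n + 1 + s)
      have h4 := hLL (1 + s)
      have h5 : n + 1 + (s + 1) = n + 1 + s + 1 := rfl
      have h6 : n + (1 + s) = n + 1 + s := by ring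
      rw [h6] at h4
      rw [h5, h3]
      have h7 : (s + 1) * ρ = s * ρ + ρ := by ring
      omega
  have e1 := dim_Lat_eq M F V (n + 1 + c * M) (t := t) ht (by rw [← hc]; omega)
  have e2 := dim_Lat M F U (n + 1) t
  have e3 := hgrow (c * M)
  have e4 : finrank k (W t M F U (n + 1)) ≤ finrank k (W t M F V (n + 1)) := Submodule.finrank_mono hWW
  have e5 := hss V hVU
  change (n + 1 + c * M) * finrank k V + Sw M F V = finrank k (W t M F V (n + 1 + c * M)) + Fintype.card I * M * finrank k V at e1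
  change (n + 1) * finrank k U + Sw M F U ≤ finrank k (W t M F U (n + 1)) + Fintype.card I * M * finrank k U at e2
  rw [← hc, ← hρ] at e1
  rw [← hc, ← hr, ← hT] at e2
  rw [← hr, ← hT, ← hρ] at e5
  have hB : r * (c * M) ≤ r * n + T := by
    rw [hn]
    exact h1.trans (Nat.add_le_add_right (Nat.mul_le_mul_left _ (Nat.le_add_right _ _)) _)
  have hrρ : r ≤ ρ := by
    have e6 : (n + 1) * r + T + c * M * ρ ≤ (n + 1) * ρ + Sw M F V + c * M * r := by
      have h7 : (n + 1 + c * M) * ρ = (n + 1) * ρ + c * M * ρ := by ring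
      omega
    zify at e6 e5 hB hU ⊢
    by_contra hcon
    push Not at hcon
    have hpos : (0 : ℤ) < (r : ℤ) * (n + 1) + T - r * (c * M) := by linarith
    have hprod := mul_pos (sub_pos.2 hcon) hpos
    have hle := mul_le_mul_of_nonneg_left e6 hU.le
    linarith [hle, e5, hprod, show ((r : ℤ) - ρ) * ((r : ℤ) * (n + 1) + T - r * (c * M)) =
      r * ((n + 1) * r + T + c * M * ρ) - r * ((n + 1) * ρ + Sw M F V + c * M * r) + (r * Sw M F V - T * ρ) by ring]
  have hVeq : V = U := Submodule.eq_of_le_of_finrank_le hVU (by rw [← hr, ← hρ]; exact hrρ)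
  refine ⟨n, α, i1, g, hg, ?_, fun x hx => ?_, ?_⟩
  · apply le_antisymm
    · rw [hg.card, hr]
      exact Submodule.finrank_mono Ld_le
    · rw [hg.card]
      exact hrρ.trans hρl
  · rw [← mem_cs, ← hV, hVeq]
    exact hx
  · rw [hn]
    have h3 : r * (n0 + j * c) + T ≤ r * (c * M) + r + r * (j * c) := by nlinarith
    have h4 : r * (j * c) ≤ r * (r * c) := Nat.mul_le_mul_left _ (Nat.mul_le_mul_right _ hj)
    nlinarith

end SQ24
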