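import Pool.Agent.Helper24.SQ.Bal2

/-!
Subspace theorem for quadratic points (MP_71c16a_nt), block T: the weight of a space which depends on lattice elements of small
degree.
-/

set_option linter.unusedSectionVars false

open Polynomial Module

namespace SQ24

variable {k K : Type*} [Field k] [Field K] [Algebra k K] {I : Type*} [Fintype I]

attribute [local instance] Polynomial.algebra

variable {t : I → k} {M : ℕ} {F : I → ℕ → Submodule k K} {R : Submodule k K} [FiniteDimensional k R]

/-- **The weight of a space which depends on lattice elements of small degree.** -/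
theorem count (ht : Function.Injective t) (hF : ∀ i j j', j ≤ j' → F i j' ≤ F i j) {d : ℕ} {Z : Set K[X]} (hfin : Z.Finite)
    (hZ : ∀ z ∈ Z, z ∈ W t M F R (d + 1)) (hR : R ≤ cs k Z) :
    Fintype.card I * M * finrank k R ≤ d * finrank k R + Sw M F R := by
  classical
  obtain ⟨s, hs, hs2⟩ := exists_maximal_linearIndepOn k[X] (fun z : Z => (z : K[X]))
  obtain ⟨S, hS⟩ : ∃ S : Set K[X], S = (fun z : Z => (z : K[X])) '' s := ⟨_, rfl⟩
  have hSZ : S ⊆ Z := by
    rw [hS]
    rintro _ ⟨z, _, rfl⟩
    exact z.2
  have hSf : S.Finite := hfin.subset hSZ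
  have hind : LinearIndependent k[X] (fun z : S => (z : K[X])) := by
    rw [hS]
    exact hs.id_image
  have hZS : Z ⊆ Sat k S := by
    intro z hz
    by_cases h : (⟨z, hz⟩ : Z) ∈ s
    · exact subset_Sat _ (by rw [hS]; exact ⟨⟨z, hz⟩, h, rfl⟩)
    · obtain ⟨a, ha, h1⟩ := hs2 _ h
      exact ⟨a, ha, by rw [hS]; exact h1⟩
  have hRS : R ≤ cs k S := hR.trans (cs_mono hZS)
  let _ : Fintype S := hSf.fintype
  have hcard := finrank_le_card hRS
  obtain ⟨n, hn⟩ : ∃ n, n = Fintype.card I * M := ⟨_, rfl⟩
  let Φ : (S → degreeLT k n) →ₗ[k] K[X] :=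
    { toFun := fun q => ∑ z : S, (q z : k[X]) • (z : K[X])
      map_add' := fun q q' => by
        rw [← Finset.sum_add_distrib]
        refine Finset.sum_congr rfl fun z _ => ?_
        rw [Pi.add_apply, Submodule.coe_add, add_smul]
      map_smul' := fun a q => by
        rw [RingHom.id_apply, Finset.smul_sum]
        refine Finset.sum_congr rfl fun z _ => ?_
        rw [Pi.smul_apply, Submodule.coe_smul, Polynomial.smul_eq_C_mul, mul_smul, C_smul'] }
  have hinj : Function.Injective Φ := by
    rw [injective_iff_map_eq_zero]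
    intro q hq
    funext z
    apply Subtype.ext
    exact (Fintype.linearIndependent_iff.1 hind) (fun z => (q z : k[X])) hq z
  have hmem : ∀ q, Φ q ∈ W t M F R (n + d) := by
    intro q
    refine Submodule.sum_mem _ fun z _ => ?_
    rcases Nat.eq_zero_or_pos n with h0 | h0
    · have h1 : (q z : k[X]) = 0 := by
        have h2 := mem_degreeLT.1 (q z).2
        obtain ⟨p, hp⟩ : ∃ p, p = (q z : k[X]) := ⟨_, rfl⟩
        rw [← hp] at h2 ⊢
        rw [h0] at h2
        ext a
        rw [coeff_zero]
        by_contra h3
        have h4 := le_degree_of_ne_zero h3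
        have h5 := lt_of_le_of_lt h4 h2
        exact absurd h5 (by simp)
      rw [h1, zero_smul]
      exact zero_mem _
    · have h1 := smul_W (n := d + 1) hF (q z : k[X]) (hZ z (hSZ z.2)) (d := n - 1) (fun a ha => by
        have h2 := mem_degreeLT.1 (q z).2
        by_contra h3
        have h4 := lt_of_le_of_lt (le_degree_of_ne_zero h3) h2
        have h5 : a < n := by exact_mod_cast h4
        omega)
      have h2 : d + 1 + (n - 1) = n + d := by omega
      rwa [h2] at h1
  have hdim : Fintype.card S * n ≤ finrank k (W t M F R (n + d)) := by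
    have h1 := LinearMap.finrank_range_of_inj hinj
    have h2 : LinearMap.range Φ ≤ W t M F R (n + d) := by
      rintro _ ⟨q, rfl⟩
      exact hmem q
    have h3 := Submodule.finrank_mono h2
    have h4 : finrank k (S → degreeLT k n) = Fintype.card S * n := by
      have : FiniteDimensional k (degreeLT k n) := Module.Finite.equiv (degreeLTEquiv k _).symm
      rw [finrank_pi_fintype]
      simp only [Finset.sum_const, Finset.card_univ, smul_eq_mul]
      rw [LinearEquiv.finrank_eq (degreeLTEquiv k n)]
      simp
    rw [← h4, ← h1]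
    exact h3
  have e1 := dim_Lat_eq M F R (n + d) (t := t) ht (by omega)
  change (n + d) * finrank k R + Sw M F R = finrank k (W t M F R (n + d)) + Fintype.card I * M * finrank k R at e1
  rw [← hn] at e1 ⊢
  have e2 : finrank k R * n ≤ Fintype.card S * n := Nat.mul_le_mul_right _ hcard
  nlinarith

end SQ24
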