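import Pool.Agent.Helper24.SQ.Pv

/-!
Subspace theorem for quadratic points (MP_71c16a_nt), block T: the lattice given by filtrations, its dimensions.
-/

set_option linter.unusedSectionVars false

open Polynomial Module

namespace SQ24

variable {k K : Type*} [Field k] [Field K] [Algebra k K] {I : Type*} [Fintype I]

/-- the lattice -/
def Lat (t : I → k) (M : ℕ) (F : I → ℕ → Submodule k K) : Submodule k K[X] where
  carrier := {u | ∀ i l, l < M → tc (t i) l u ∈ F i (M - l)}
  add_mem' := fun {u v} hu hv i l hl => by rw [tc_add]; exact (F i (M - l)).add_mem (hu i l hl) (hv i l hl)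
  zero_mem' := fun i l _ => by
    have h := tc_smul (K := K) (t i) l (0 : k) 0
    rw [zero_smul, zero_smul] at h
    rw [h]
    exact (F i (M - l)).zero_mem
  smul_mem' := fun c u hu i l hl => by rw [tc_smul]; exact (F i (M - l)).smul_mem c (hu i l hl)

theorem mem_Lat {t : I → k} {M : ℕ} {F : I → ℕ → Submodule k K} {u : K[X]} :
    u ∈ Lat t M F ↔ ∀ i l, l < M → tc (t i) l u ∈ F i (M - l) := Iff.rfl

section

variable {t : I → k} (M : ℕ) (F : I → ℕ → Submodule k K) (R : Submodule k K) [FiniteDimensional k R] (n : ℕ)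

variable (t) in
/-- the Taylor coefficients of a polynomial -/
noncomputable def Ph : PV R n →ₗ[k] (I × Fin M → R) where
  toFun u x := ⟨tc (t x.1) x.2 u.1, tc_mem u.2.1 _ _⟩
  map_add' _ _ := funext fun _ => Subtype.ext (tc_add _ _ _ _)
  map_smul' _ _ := funext fun _ => Subtype.ext (tc_smul _ _ _ _)

/-- the conditions -/
def Yc : Submodule k (I × Fin M → R) := Submodule.pi Set.univ fun x => (F x.1 (M - x.2)).comap R.subtype

variable {M F R n}

theorem mem_Yc {f : I × Fin M → R} : f ∈ Yc M F R ↔ ∀ x, (f x : K) ∈ F x.1 (M - x.2) := by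
  rw [Yc, Submodule.mem_pi]
  exact ⟨fun h x => h x (Set.mem_univ x), fun h x _ => h x⟩

variable (M F R n)

theorem sum_reflect (f : ℕ → ℕ) : ∑ l : Fin M, f (M - l) = ∑ j ∈ Finset.range M, f (j + 1) := by
  rw [Fin.sum_univ_eq_sum_range (fun l => f (M - l)) M, ← Finset.sum_range_reflect]
  refine Finset.sum_congr rfl fun j hj => ?_
  have := Finset.mem_range.1 hj
  congr 1
  omega

theorem finrank_Yc : finrank k (Yc M F R) = ∑ i, ∑ j ∈ Finset.range M, finrank k (F i (j + 1) ⊓ R : Submodule k K) := by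
  let e : Yc M F R ≃ₗ[k] ((x : I × Fin M) → (F x.1 (M - x.2) ⊓ R : Submodule k K)) :=
    { toFun := fun f x => ⟨(f.1 x : K), mem_Yc.1 f.2 x, (f.1 x).2⟩
      map_add' := fun f g => rfl
      map_smul' := fun c f => rfl
      invFun := fun g => ⟨fun x => ⟨(g x).1, (g x).2.2⟩, mem_Yc.2 fun x => (g x).2.1⟩
      left_inv := fun f => rfl
      right_inv := fun g => rfl }
  rw [LinearEquiv.finrank_eq e, finrank_pi_fintype, Fintype.sum_prod_type]
  refine Finset.sum_congr rfl fun i _ => ?_
  exact sum_reflect M fun j => finrank k (F i j ⊓ R : Submodule k K)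

theorem finrank_cod : finrank k (I × Fin M → R) = Fintype.card I * M * finrank k R := by
  rw [finrank_pi_fintype]
  simp

theorem finrank_ker : finrank k (LinearMap.ker ((Yc M F R).mkQ ∘ₗ Ph t M R n)) =
    finrank k (Lat t M F ⊓ PV R n : Submodule k K[X]) := by
  rw [← Submodule.finrank_map_subtype_eq (PV R n)]
  have h1 : Submodule.map (PV R n).subtype (LinearMap.ker ((Yc M F R).mkQ ∘ₗ Ph t M R n)) = Lat t M F ⊓ PV R n := by
    ext u
    constructor
    · rintro ⟨v, hv, rfl⟩
      refine ⟨?_, v.2⟩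
      rw [SetLike.mem_coe, LinearMap.mem_ker, LinearMap.comp_apply, Submodule.mkQ_apply, Submodule.Quotient.mk_eq_zero,
        mem_Yc] at hv
      intro i l hl
      exact hv (i, ⟨l, hl⟩)
    · rintro ⟨h1, h2⟩
      refine ⟨⟨u, h2⟩, ?_, rfl⟩
      rw [SetLike.mem_coe, LinearMap.mem_ker, LinearMap.comp_apply, Submodule.mkQ_apply, Submodule.Quotient.mk_eq_zero, mem_Yc]
      intro x
      exact h1 x.1 x.2 x.2.2
  rw [h1]

/-- the lower bound -/
theorem dim_Lat (t : I → k) : n * finrank k R + ∑ i, ∑ j ∈ Finset.range M, finrank k (F i (j + 1) ⊓ R : Submodule k K) ≤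
    finrank k (Lat t M F ⊓ PV R n : Submodule k K[X]) + Fintype.card I * M * finrank k R := by
  have h1 := LinearMap.finrank_range_add_finrank_ker ((Yc M F R).mkQ ∘ₗ Ph t M R n)
  have h2 := Submodule.finrank_le (LinearMap.range ((Yc M F R).mkQ ∘ₗ Ph t M R n))
  have h3 := Submodule.finrank_quotient_add_finrank (Yc M F R)
  rw [finrank_Yc, finrank_cod] at h3
  rw [finrank_ker, finrank_PV] at h1
  omega

/-- the dimension for large degrees -/
theorem dim_Lat_eq [DecidableEq I] (ht : Function.Injective t) (hn : Fintype.card I * M ≤ n) :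
    n * finrank k R + ∑ i, ∑ j ∈ Finset.range M, finrank k (F i (j + 1) ⊓ R : Submodule k K) =
    finrank k (Lat t M F ⊓ PV R n : Submodule k K[X]) + Fintype.card I * M * finrank k R := by
  have h1 := LinearMap.finrank_range_add_finrank_ker ((Yc M F R).mkQ ∘ₗ Ph t M R n)
  have h2 : LinearMap.range ((Yc M F R).mkQ ∘ₗ Ph t M R n) = ⊤ := by
    rw [LinearMap.range_eq_top]
    refine (Submodule.mkQ_surjective _).comp ?_
    intro f
    obtain ⟨h, hdeg, hh⟩ := hermite ht M
    have hmem : (∑ x, C (f x : K) * (h x).map (algebraMap k K)) ∈ PV R n := by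
      refine (PV R n).sum_mem fun x _ => ⟨fun a => ?_, fun a ha => ?_⟩
      · rw [coeff_C_mul, coeff_map, mul_comm, ← Algebra.smul_def]
        exact R.smul_mem _ (f x).2
      · rw [coeff_C_mul, coeff_map]
        rcases hdeg x with h3 | h3
        · rw [coeff_eq_zero_of_natDegree_lt (by omega), map_zero, mul_zero]
        · rw [h3, coeff_zero, map_zero, mul_zero]
    refine ⟨⟨_, hmem⟩, funext fun y => Subtype.ext ?_⟩
    change tc (t y.1) y.2 (∑ x, C (f x : K) * (h x).map (algebraMap k K)) = (f y : K)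
    have h4 : tcL (K := K) (t y.1) y.2 (∑ x, C (f x : K) * (h x).map (algebraMap k K)) =
        ∑ x, tcL (K := K) (t y.1) y.2 (C (f x : K) * (h x).map (algebraMap k K)) := map_sum _ _ _
    change tcL (K := K) (t y.1) y.2 (∑ x, C (f x : K) * (h x).map (algebraMap k K)) = (f y : K)
    rw [h4, Finset.sum_eq_single y]
    · change tc (t y.1) y.2 (C (f y : K) * (h y).map (algebraMap k K)) = _
      rw [tc, taylor_mul, taylor_C, coeff_C_mul]
      change (f y : K) * tc (t y.1) y.2 ((h y).map (algebraMap k K)) = _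
      rw [tc_map, hh, if_pos rfl, map_one, mul_one]
    · intro x _ hx
      change tc (t y.1) y.2 (C (f x : K) * (h x).map (algebraMap k K)) = _
      rw [tc, taylor_mul, taylor_C, coeff_C_mul]
      change (f x : K) * tc (t y.1) y.2 ((h x).map (algebraMap k K)) = _
      rw [tc_map, hh, if_neg hx, map_zero, mul_zero]
    · intro hx
      exact absurd (Finset.mem_univ _) hx
  have h3 := Submodule.finrank_quotient_add_finrank (Yc M F R)
  rw [finrank_Yc, finrank_cod] at h3
  rw [h2, finrank_top, finrank_ker, finrank_PV] at h1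
  omega

end

end SQ24
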