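import Mathlib

/-!
Subspace theorem for quadratic points (MP_71c16a_nt), block T: polynomials with coefficients in a subspace, Taylor
coefficients, Hermite interpolation.
-/

set_option linter.unusedSectionVars false

open Polynomial Module

namespace SQ24

variable {k K : Type*} [Field k] [Field K] [Algebra k K]

/-- polynomials of degree `< n` with coefficients in `R` -/
def PV (R : Submodule k K) (n : ℕ) : Submodule k K[X] where
  carrier := {u | (∀ a, u.coeff a ∈ R) ∧ ∀ a, n ≤ a → u.coeff a = 0}
  add_mem' := fun {u v} hu hv => ⟨fun a => by rw [coeff_add]; exact R.add_mem (hu.1 a) (hv.1 a),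
    fun a ha => by rw [coeff_add, hu.2 a ha, hv.2 a ha, add_zero]⟩
  zero_mem' := ⟨fun a => by rw [coeff_zero]; exact R.zero_mem, fun a _ => coeff_zero a⟩
  smul_mem' := fun c u hu => ⟨fun a => by rw [coeff_smul]; exact R.smul_mem c (hu.1 a),
    fun a ha => by rw [coeff_smul, hu.2 a ha, smul_zero]⟩

theorem mem_PV {R : Submodule k K} {n : ℕ} {u : K[X]} :
    u ∈ PV R n ↔ (∀ a, u.coeff a ∈ R) ∧ ∀ a, n ≤ a → u.coeff a = 0 := Iff.rfl

theorem PV_mono {R R' : Submodule k K} (h : R ≤ R') {n n' : ℕ} (hn : n ≤ n') : PV R n ≤ PV R' n' :=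
  fun _ hu => ⟨fun a => h (hu.1 a), fun a ha => hu.2 a (hn.trans ha)⟩

/-- coordinates -/
noncomputable def pvE (R : Submodule k K) (n : ℕ) : PV R n ≃ₗ[k] (Fin n → R) where
  toFun u := fun a => ⟨u.1.coeff a, u.2.1 a⟩
  map_add' u v := by
    funext a
    exact Subtype.ext (coeff_add _ _ _)
  map_smul' c u := by
    funext a
    exact Subtype.ext (coeff_smul _ _ _)
  invFun f := ⟨∑ a : Fin n, monomial (a : ℕ) (f a : K), by
    constructor
    · intro a
      rw [finsetSum_coeff]
      refine R.sum_mem fun b _ => ?_
      rw [coeff_monomial]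
      split_ifs
      · exact (f b).2
      · exact R.zero_mem
    · intro a ha
      rw [finsetSum_coeff]
      refine Finset.sum_eq_zero fun b _ => ?_
      rw [coeff_monomial, if_neg]
      have := b.2
      omega⟩
  left_inv u := by
    apply Subtype.ext
    ext a
    change (∑ b : Fin n, monomial (b : ℕ) (u.1.coeff b)).coeff a = u.1.coeff a
    rw [finsetSum_coeff]
    by_cases ha : a < n
    · rw [Finset.sum_eq_single ⟨a, ha⟩]
      · rw [coeff_monomial, if_pos rfl]
      · intro b _ hb
        rw [coeff_monomial, if_neg]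
        intro h
        exact hb (Fin.ext h)
      · intro h
        exact absurd (Finset.mem_univ _) h
    · rw [u.2.2 a (by omega)]
      refine Finset.sum_eq_zero fun b _ => ?_
      rw [coeff_monomial, if_neg]
      have := b.2
      omega
  right_inv f := by
    funext a
    apply Subtype.ext
    change (∑ b : Fin n, monomial (b : ℕ) (f b : K)).coeff (a : ℕ) = f a
    rw [finsetSum_coeff, Finset.sum_eq_single a]
    · rw [coeff_monomial, if_pos rfl]
    · intro b _ hb
      rw [coeff_monomial, if_neg]
      intro h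
      exact hb (Fin.ext h)
    · intro h
      exact absurd (Finset.mem_univ _) h

instance (R : Submodule k K) [FiniteDimensional k R] (n : ℕ) : FiniteDimensional k (PV R n) :=
  Module.Finite.equiv (pvE R n).symm

theorem finrank_PV (R : Submodule k K) [FiniteDimensional k R] (n : ℕ) : finrank k (PV R n) = n * finrank k R := by
  rw [LinearEquiv.finrank_eq (pvE R n), finrank_pi_fintype]
  simp

/-- Taylor coefficients -/
noncomputable def tc (t : k) (l : ℕ) (u : K[X]) : K := (taylor (algebraMap k K t) u).coeff l

theorem tc_add (t : k) (l : ℕ) (u v : K[X]) : tc t l (u + v) = tc t l u + tc t l v := by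
  rw [tc, map_add, coeff_add]
  rfl

theorem tc_smul (t : k) (l : ℕ) (c : k) (u : K[X]) : tc t l (c • u) = c • tc t l u := by
  have h1 : c • u = C (algebraMap k K c) * u := by
    rw [← Polynomial.smul_eq_C_mul, algebraMap_smul]
  rw [tc, h1, taylor_mul, taylor_C, coeff_C_mul, Algebra.smul_def]
  rfl

/-- Taylor coefficients as a linear map -/
noncomputable def tcL (t : k) (l : ℕ) : K[X] →ₗ[k] K where
  toFun := tc t l
  map_add' := tc_add t l
  map_smul' := tc_smul t l

theorem tc_mul (t : k) (l : ℕ) (u v : K[X]) :
    tc t l (u * v) = ∑ x ∈ Finset.HasAntidiagonal.antidiagonal l, tc t x.1 u * tc t x.2 v := by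
  rw [tc, taylor_mul, coeff_mul]
  rfl

theorem tc_map (t : k) (l : ℕ) (p : k[X]) : tc (K := K) t l (p.map (algebraMap k K)) = algebraMap k K (tc (K := k) t l p) := by
  rw [tc, ← map_taylor, coeff_map]
  rfl

theorem tc_C (t : k) (l : ℕ) (c : K) : tc t l (C c) = if l = 0 then c else 0 := by
  rw [tc, taylor_C, coeff_C]

theorem tc_mem {R : Submodule k K} {u : K[X]} (h : ∀ a, u.coeff a ∈ R) (t : k) (l : ℕ) : tc t l u ∈ R := by
  rw [tc, taylor_coeff, hasseDeriv_apply, Polynomial.sum, eval_finsetSum]
  refine R.sum_mem fun i _ => ?_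
  rw [eval_monomial]
  have h1 : ((i.choose l : ℕ) : K) * u.coeff i * algebraMap k K t ^ (i - l) =
      (((i.choose l : ℕ) : k) * t ^ (i - l)) • u.coeff i := by
    rw [Algebra.smul_def, map_mul, map_pow, map_natCast]
    ring
  rw [h1]
  exact R.smul_mem _ (h i)

theorem tc_derivative (t : k) (l : ℕ) (u : K[X]) : tc t l (derivative u) = ((l : K) + 1) * tc t (l + 1) u := by
  have h1 : taylor (algebraMap k K t) (derivative u) = derivative (taylor (algebraMap k K t) u) := by
    rw [taylor_apply, taylor_apply, derivative_comp]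
    simp
  rw [tc, h1, coeff_derivative, tc]
  ring

/-- a polynomial with zero Taylor coefficients is divisible -/
theorem pow_dvd_of_tc {t : k} {M : ℕ} {p : k[X]} (h : ∀ l, l < M → tc (K := k) t l p = 0) : (X - C t) ^ M ∣ p := by
  have h1 : X ^ M ∣ taylor t p := by
    rw [X_pow_dvd_iff]
    exact h
  obtain ⟨q, hq⟩ := h1
  refine ⟨taylor (-t) q, ?_⟩
  have h2 : taylor (-t) (taylor t p) = p := by
    rw [taylor_taylor, neg_add_cancel, taylor_zero]
  rw [← h2, hq, taylor_mul, taylor_pow, taylor_X, C_neg, ← sub_eq_add_neg]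

section hermite

variable {I : Type*} [Fintype I] [DecidableEq I] {t : I → k} (ht : Function.Injective t) (M : ℕ)

include ht

/-- Hermite interpolation -/
theorem hermite : ∃ h : I × Fin M → k[X], (∀ x, (h x).natDegree < Fintype.card I * M ∨ h x = 0) ∧
    ∀ x y : I × Fin M, tc (K := k) (t y.1) y.2 (h x) = if x = y then 1 else 0 := by
  classical
  let Ψ : degreeLT k (Fintype.card I * M) →ₗ[k] (I × Fin M → k) :=
    { toFun := fun p x => tc (K := k) (t x.1) x.2 p.1
      map_add' := fun p q => funext fun x => tc_add _ _ _ _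
      map_smul' := fun c p => funext fun x => tc_smul _ _ _ _ }
  have hinj : Function.Injective Ψ := by
    rw [injective_iff_map_eq_zero]
    intro p hp
    have h1 : ∀ i, (X - C (t i)) ^ M ∣ p.1 := by
      intro i
      refine pow_dvd_of_tc fun l hl => ?_
      exact congrFun hp (i, ⟨l, hl⟩)
    have h2 : ∏ i, (X - C (t i)) ^ M ∣ p.1 := by
      refine Finset.prod_dvd_of_coprime (fun i _ j _ hij => ?_) fun i _ => h1 i
      apply IsCoprime.pow
      exact isCoprime_X_sub_C_of_isUnit_sub (by
        rw [isUnit_iff_ne_zero, sub_ne_zero]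
        exact fun h => hij (ht h))
    apply Subtype.ext
    by_contra h3
    have h4 : (p.1).natDegree < Fintype.card I * M := by
      have h5 := mem_degreeLT.1 p.2
      rwa [Polynomial.natDegree_lt_iff_degree_lt (by exact fun h => h3 h)]
    have h5 := natDegree_le_of_dvd h2 (by exact fun h => h3 h)
    rw [natDegree_prod_of_monic _ _ fun i _ => (monic_X_sub_C _).pow M] at h5
    simp only [natDegree_pow, natDegree_X_sub_C, mul_one, Finset.sum_const, Finset.card_univ, smul_eq_mul] at h5
    omega
  have hsurj : Function.Surjective Ψ := by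
    have h1 : finrank k (degreeLT k (Fintype.card I * M)) = finrank k (I × Fin M → k) := by
      rw [LinearEquiv.finrank_eq (degreeLTEquiv k _)]
      simp
    have : FiniteDimensional k (degreeLT k (Fintype.card I * M)) := Module.Finite.equiv (degreeLTEquiv k _).symm
    exact (LinearMap.injective_iff_surjective_of_finrank_eq_finrank h1).1 hinj
  choose g hg using fun x : I × Fin M => hsurj (Pi.single x 1)
  refine ⟨fun x => (g x).1, fun x => ?_, fun x y => ?_⟩
  · by_cases h : (g x).1 = 0
    · exact Or.inr h
    · left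
      have h5 := mem_degreeLT.1 (g x).2
      rwa [Polynomial.natDegree_lt_iff_degree_lt h]
  · have h1 := congrFun (hg x) y
    change tc (K := k) (t y.1) y.2 (g x).1 = _ at h1
    rw [h1, Pi.single_apply]
    by_cases h : x = y
    · rw [if_pos h, if_pos h.symm]
    · rw [if_neg h, if_neg (Ne.symm h)]

end hermite

end SQ24
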