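import Pool.Agent.Helper24.SQ.Lat

/-!
Subspace theorem for quadratic points (MP_71c16a_nt), block T: the saturation of a module over `k[X]`.
-/

set_option linter.unusedSectionVars false

open Polynomial Module Pointwise

namespace SQ24

variable {k K : Type*} [Field k] [Field K] [Algebra k K]

attribute [local instance] Polynomial.algebra

theorem smul_eq' (p : k[X]) (u : K[X]) : p • u = p.map (algebraMap k K) * u := by
  rw [Algebra.smul_def]
  rfl

theorem C_smul' (c : k) (u : K[X]) : (C c : k[X]) • u = c • u := by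
  rw [smul_eq', map_C, ← Polynomial.smul_eq_C_mul, algebraMap_smul]

theorem coeff_smul' (p : k[X]) (u : K[X]) (a : ℕ) :
    (p • u).coeff a = ∑ x ∈ Finset.HasAntidiagonal.antidiagonal a, p.coeff x.1 • u.coeff x.2 := by
  rw [smul_eq', coeff_mul]
  refine Finset.sum_congr rfl fun x _ => ?_
  rw [coeff_map, Algebra.smul_def]

theorem coeff_smul_C (p : k[X]) (c : K) (a : ℕ) : (p • (C c : K[X])).coeff a = p.coeff a • c := by
  rw [smul_eq', coeff_mul_C, coeff_map, Algebra.smul_def]

theorem smul_ne {p : k[X]} {u : K[X]} (hp : p ≠ 0) (hu : u ≠ 0) : p • u ≠ 0 := by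
  rw [smul_eq']
  refine mul_ne_zero ?_ hu
  exact (Polynomial.map_ne_zero_iff (algebraMap k K).injective).2 hp

variable (k) in
/-- the saturation of the span -/
def Sat (Z : Set K[X]) : Submodule k[X] K[X] where
  carrier := {u | ∃ p : k[X], p ≠ 0 ∧ p • u ∈ Submodule.span k[X] Z}
  add_mem' := by
    rintro u v ⟨p, hp, hu⟩ ⟨q, hq, hv⟩
    refine ⟨p * q, mul_ne_zero hp hq, ?_⟩
    rw [smul_add]
    refine add_mem ?_ ?_
    · rw [mul_comm, mul_smul]
      exact Submodule.smul_mem _ q hu
    · rw [mul_smul]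
      exact Submodule.smul_mem _ p hv
  zero_mem' := ⟨1, one_ne_zero, by rw [smul_zero]; exact zero_mem _⟩
  smul_mem' := by
    rintro c u ⟨p, hp, hu⟩
    exact ⟨p, hp, by rw [smul_comm]; exact Submodule.smul_mem _ c hu⟩

theorem mem_Sat {Z : Set K[X]} {u : K[X]} : u ∈ Sat k Z ↔ ∃ p : k[X], p ≠ 0 ∧ p • u ∈ Submodule.span k[X] Z := Iff.rfl

theorem subset_Sat (Z : Set K[X]) : Z ⊆ Sat k Z := fun u hu =>
  ⟨1, one_ne_zero, by rw [one_smul]; exact Submodule.subset_span hu⟩

theorem of_smul_Sat {Z : Set K[X]} {u : K[X]} {p : k[X]} (hp : p ≠ 0) (h : p • u ∈ Sat k Z) : u ∈ Sat k Z := by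
  obtain ⟨q, hq, h1⟩ := h
  exact ⟨q * p, mul_ne_zero hq hp, by rw [mul_smul]; exact h1⟩

theorem Sat_le {Z Z' : Set K[X]} (h : Z ⊆ Sat k Z') : Sat k Z ≤ Sat k Z' := by
  rintro u ⟨p, hp, hu⟩
  exact of_smul_Sat hp (Submodule.span_le.2 h hu)

theorem mul_Sat {Z Z' : Set K[X]} {u v : K[X]} (hu : u ∈ Sat k Z) (hv : v ∈ Sat k Z') : u * v ∈ Sat k (Z * Z') := by
  obtain ⟨p, hp, h1⟩ := hu
  obtain ⟨q, hq, h2⟩ := hv
  refine ⟨p * q, mul_ne_zero hp hq, ?_⟩
  have h3 : (p * q) • (u * v) = (p • u) * (q • v) := by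
    rw [smul_mul_smul_comm]
  rw [h3, ← Submodule.span_mul_span]
  exact Submodule.mul_mem_mul h1 h2

variable (k) in
/-- the constants in the saturation -/
def cs (Z : Set K[X]) : Submodule k K where
  carrier := {c | C c ∈ Sat k Z}
  add_mem' := fun {a b} ha hb => by
    change C (a + b) ∈ Sat k Z
    rw [C_add]
    exact add_mem ha hb
  zero_mem' := by
    change C 0 ∈ Sat k Z
    rw [C_0]
    exact zero_mem _
  smul_mem' := fun c a ha => by
    change C (c • a) ∈ Sat k Z
    rw [← smul_C, ← C_smul']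
    exact Submodule.smul_mem _ _ ha

theorem mem_cs {Z : Set K[X]} {c : K} : c ∈ cs k Z ↔ C c ∈ Sat k Z := Iff.rfl

theorem cs_mono {Z Z' : Set K[X]} (h : Z ⊆ Sat k Z') : cs k Z ≤ cs k Z' := fun _ hc => Sat_le h hc

theorem cs_mul (Z Z' : Set K[X]) : cs k Z * cs k Z' ≤ cs k (Z * Z') := by
  rw [Submodule.mul_le]
  intro a ha b hb
  rw [mem_cs, C_mul]
  exact mul_Sat ha hb

theorem cs_pow {Z : Set K[X]} {U : Submodule k K} (h : U ≤ cs k Z) (a : ℕ) : U ^ a ≤ cs k (Z ^ a) := by
  induction a with
  | zero =>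
    rw [pow_zero, pow_zero, Submodule.one_le]
    exact subset_Sat _ (by rw [C_1]; exact Set.mem_one.2 rfl)
  | succ a ih =>
    rw [pow_succ, pow_succ]
    exact (mul_le_mul' ih h).trans (cs_mul _ _)

theorem C_indep {ι : Type*} {c : ι → K} (h : LinearIndependent k c) : LinearIndependent k[X] (fun i => (C (c i) : K[X])) := by
  rw [linearIndependent_iff'] at h ⊢
  intro s q hq i hi
  ext a
  rw [coeff_zero]
  refine h s (fun j => (q j).coeff a) ?_ i hi
  have h1 := congrArg (fun u : K[X] => u.coeff a) hq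
  simp only [finsetSum_coeff, coeff_zero, coeff_smul_C] at h1
  exact h1

/-- the rank -/
theorem finrank_le_card {Z : Set K[X]} [Fintype Z] {V : Submodule k K} [FiniteDimensional k V] (h : V ≤ cs k Z) :
    finrank k V ≤ Fintype.card Z := by
  obtain ⟨c, hc⟩ : ∃ c : Fin (finrank k V) → K, (∀ i, c i ∈ V) ∧ LinearIndependent k c := by
    refine ⟨fun i => (finBasis k V i : K), fun i => (finBasis k V i).2, ?_⟩
    have h1 := (finBasis k V).linearIndependent
    exact h1.map' V.subtype (Submodule.ker_subtype V)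
  choose p hp hpc using fun i => h (hc.1 i)
  obtain ⟨P, hP⟩ : ∃ P, P = ∏ i, p i := ⟨_, rfl⟩
  have hP0 : P ≠ 0 := by
    rw [hP]
    exact Finset.prod_ne_zero_iff.2 fun i _ => hp i
  have h1 : LinearIndependent k[X] (fun i => P • (C (c i) : K[X])) := by
    have h2 := C_indep hc.2
    rw [linearIndependent_iff'] at h2 ⊢
    intro s q hq i hi
    have h3 := h2 s (fun j => q j * P) (by
      rw [← hq]
      refine Finset.sum_congr rfl fun j _ => ?_
      rw [mul_smul]) i hi
    exact (mul_eq_zero.1 h3).resolve_right hP0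
  have h2 := linearIndependent_le_span' _ h1 Z (by
    rintro _ ⟨i, rfl⟩
    change P • (C (c i) : K[X]) ∈ Submodule.span k[X] Z
    rw [hP, ← Finset.prod_erase_mul _ _ (Finset.mem_univ i), mul_smul]
    exact Submodule.smul_mem _ _ (hpc i))
  rw [Cardinal.mk_fintype, Fintype.card_fin] at h2
  exact_mod_cast h2

/-- the polynomials with coefficients in `U` -/
def PU (U : Submodule k K) : Submodule k[X] K[X] where
  carrier := {u | ∀ a, u.coeff a ∈ U}
  add_mem' := fun {u v} hu hv a => by
    rw [coeff_add]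
    exact U.add_mem (hu a) (hv a)
  zero_mem' := fun a => by
    rw [coeff_zero]
    exact U.zero_mem
  smul_mem' := fun p u hu a => by
    rw [coeff_smul']
    exact U.sum_mem fun x _ => U.smul_mem _ (hu _)

theorem cs_le {Z : Set K[X]} {U : Submodule k K} (h : ∀ z ∈ Z, ∀ a, z.coeff a ∈ U) : cs k Z ≤ U := by
  intro c hc
  obtain ⟨p, hp, h1⟩ := hc
  have h2 : Submodule.span k[X] Z ≤ PU U := Submodule.span_le.2 fun z hz => h z hz
  obtain ⟨a, ha⟩ : ∃ a, p.coeff a ≠ 0 := by
    by_contra hcon
    push Not at hcon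
    exact hp (Polynomial.ext fun a => by rw [hcon a, coeff_zero])
  have h3 := h2 h1 a
  rw [coeff_smul_C] at h3
  have h4 := U.smul_mem (p.coeff a)⁻¹ h3
  rwa [smul_smul, inv_mul_cancel₀ ha, one_smul] at h4

/-- a module that is stable under the derivation is generated by constants -/
theorem der_const [CharZero k] {S : Submodule k[X] K[X]} (hS : ∀ u ∈ S, derivative u ∈ S) (N : ℕ) :
    ∀ u ∈ S, (∀ a, N ≤ a → u.coeff a = 0) → ∀ a, C (u.coeff a) ∈ S := by
  have : CharZero K := charZero_of_injective_algebraMap (algebraMap k K).injective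
  induction N with
  | zero =>
    intro u _ hu0 a
    rw [hu0 a (Nat.zero_le a), C_0]
    exact S.zero_mem
  | succ N ih =>
    intro u hu hu0
    have h1 : ∀ n, derivative^[n] u ∈ S := by
      intro n
      induction n with
      | zero => exact hu
      | succ n ihn =>
        rw [Function.iterate_succ_apply']
        exact hS _ ihn
    have h2 : derivative^[N] u = C (((N.factorial : ℕ) : K) * u.coeff N) := by
      ext m
      rw [coeff_iterate_derivative, coeff_C]
      by_cases hm : m = 0
      · subst hm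
        rw [if_pos rfl, zero_add, Nat.descFactorial_self, nsmul_eq_mul]
      · rw [if_neg hm, hu0 (m + N) (by omega), smul_zero]
    have h3 : C (u.coeff N) ∈ S := by
      have h4 := S.smul_mem (C (((N.factorial : ℕ) : k))⁻¹) (h1 N)
      have h5 : ((N.factorial : ℕ) : k) ≠ 0 := by exact_mod_cast N.factorial_ne_zero
      rw [h2, C_smul', smul_C, Algebra.smul_def, ← mul_assoc, map_inv₀, map_natCast, inv_mul_cancel₀, one_mul] at h4
      · exact h4
      · exact_mod_cast N.factorial_ne_zero
    obtain ⟨v, hv⟩ : ∃ v, v = u - (X ^ N : k[X]) • C (u.coeff N) := ⟨_, rfl⟩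
    have h4 : ∀ a, ((X ^ N : k[X]) • C (u.coeff N)).coeff a = if a = N then u.coeff N else 0 := by
      intro a
      rw [coeff_smul_C, coeff_X_pow]
      split_ifs
      · rw [one_smul]
      · rw [zero_smul]
    have hvS : v ∈ S := by
      rw [hv]
      exact S.sub_mem hu (S.smul_mem _ h3)
    have hv0 : ∀ a, N ≤ a → v.coeff a = 0 := by
      intro a ha
      rw [hv, coeff_sub, h4]
      by_cases haN : a = N
      · rw [if_pos haN, haN, sub_self]
      · rw [if_neg haN, hu0 a (by omega), sub_zero]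
    intro a
    have h5 := ih v hvS hv0 a
    rw [hv, coeff_sub, h4] at h5
    by_cases haN : a = N
    · rw [haN]
      exact h3
    · rwa [if_neg haN, sub_zero] at h5

/-- the saturation of a module that is stable under the derivation up to a factor -/
theorem der_Sat {Z : Set K[X]} {q : k[X]} (hq : q ≠ 0) (h : ∀ z ∈ Z, q • derivative z ∈ Sat k Z) :
    ∀ u ∈ Sat k Z, derivative u ∈ Sat k Z := by
  have hd : ∀ (p : k[X]) (u : K[X]), derivative (p • u) = derivative p • u + p • derivative u := by
    intro p u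
    rw [smul_eq', derivative_mul, smul_eq', smul_eq', derivative_map]
  have h1 : ∀ u ∈ Submodule.span k[X] Z, derivative u ∈ Sat k Z := by
    intro u hu
    induction hu using Submodule.span_induction with
    | mem z hz => exact of_smul_Sat hq (h z hz)
    | zero =>
      rw [derivative_zero]
      exact zero_mem _
    | add u v _ _ hu hv =>
      rw [derivative_add]
      exact add_mem hu hv
    | smul p u hu hu' =>
      rw [hd]
      refine add_mem (Submodule.smul_mem _ _ ?_) (Submodule.smul_mem _ _ hu')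
      exact Submodule.span_le.2 (subset_Sat Z) hu
  rintro u ⟨p, hp, hu⟩
  have h2 := h1 _ hu
  rw [hd] at h2
  have h3 : derivative p • u ∈ Sat k Z := Submodule.smul_mem _ _ ⟨p, hp, hu⟩
  have h4 := sub_mem h2 h3
  rw [add_sub_cancel_left] at h4
  exact of_smul_Sat hp h4

end SQ24
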