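import Pool.Agent.Helper24.SQ.Cnt
import Pool.Agent.Helper42.SQ.Defs

/-!
Subspace theorem for quadratic points (MP_71c16a_nt), block T: semistability of tensor products.
-/

set_option linter.unusedSectionVars false

open Polynomial Module Pointwise

namespace SQ24

open Pool.Agent.SQ

variable {k K : Type*} [Field k] [Field K] [Algebra k K]

attribute [local instance] Polynomial.algebra

section lev

variable {ω : K → ℝ} (h : RV k ω)

theorem mem_lev {c : ℝ} {x : K} : x ∈ lev h c ↔ x = 0 ∨ c ≤ ω x := Iff.rfl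

theorem lev_anti {c c' : ℝ} (hc : c ≤ c') : lev h c' ≤ lev h c := by
  rintro x (hx | hx)
  · exact Or.inl hx
  · exact Or.inr (hc.trans hx)

theorem lev_mul {c c' : ℝ} {x y : K} (hx : x ∈ lev h c) (hy : y ∈ lev h c') : x * y ∈ lev h (c + c') := by
  by_cases hx0 : x = 0
  · rw [hx0, zero_mul]
    exact zero_mem _
  by_cases hy0 : y = 0
  · rw [hy0, mul_zero]
    exact zero_mem _
  refine Or.inr ?_
  rw [h.mul x y hx0 hy0]
  exact add_le_add (hx.resolve_left hx0) (hy.resolve_left hy0)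

theorem one_lev : (1 : K) ∈ lev h 0 := by
  have h1 := h.alg 1 one_ne_zero
  rw [map_one] at h1
  exact Or.inr h1.ge

theorem lev_bot (E : Submodule k K) [FiniteDimensional k E] {N : ℕ} (hN : 0 < N) (c : ℝ) :
    ∃ M0 : ℕ, ∀ j ≥ M0, E ⊓ lev h (((j : ℝ) + 1) / N - c) = ⊥ := by
  have hNR : (0 : ℝ) < N := by exact_mod_cast hN
  have hanti : ∀ j j' : ℕ, j ≤ j' → E ⊓ lev h (((j' : ℝ) + 1) / N - c) ≤ E ⊓ lev h (((j : ℝ) + 1) / N - c) := by
    intro j j' hj
    refine inf_le_inf_left _ (lev_anti h ?_)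
    have h1 : (j : ℝ) ≤ j' := by exact_mod_cast hj
    have h2 : ((j : ℝ) + 1) / N ≤ ((j' : ℝ) + 1) / N := by
      apply div_le_div_of_nonneg_right _ hNR.le
      linarith
    linarith
  obtain ⟨j0, hj0⟩ : ∃ j0 : ℕ, ∀ j : ℕ, finrank k (E ⊓ lev h (((j0 : ℝ) + 1) / N - c) : Submodule k K) ≤
      finrank k (E ⊓ lev h (((j : ℝ) + 1) / N - c) : Submodule k K) := by
    have hwf := WellFounded.has_min (measure fun j : ℕ => finrank k (E ⊓ lev h (((j : ℝ) + 1) / N - c) : Submodule k K)).wf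
      Set.univ ⟨0, trivial⟩
    obtain ⟨j0, -, h1⟩ := hwf
    refine ⟨j0, fun j => ?_⟩
    have h2 := h1 j trivial
    change ¬ (finrank k (E ⊓ lev h (((j : ℝ) + 1) / N - c) : Submodule k K) <
      finrank k (E ⊓ lev h (((j0 : ℝ) + 1) / N - c) : Submodule k K)) at h2
    omega
  have hconst : ∀ j ≥ j0, E ⊓ lev h (((j : ℝ) + 1) / N - c) = E ⊓ lev h (((j0 : ℝ) + 1) / N - c) := by
    intro j hj
    have : FiniteDimensional k (E ⊓ lev h (((j0 : ℝ) + 1) / N - c) : Submodule k K) := Submodule.finiteDimensional_inf_left _ _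
    exact Submodule.eq_of_le_of_finrank_le (hanti j0 j hj) (hj0 j)
  refine ⟨j0, fun j hj => ?_⟩
  rw [hconst j hj, Submodule.eq_bot_iff]
  intro x hx
  by_contra hx0
  obtain ⟨j1, hj1⟩ := exists_nat_gt ((ω x + c) * N)
  have h1 : x ∈ E ⊓ lev h (((max j0 j1 : ℕ) + 1 : ℝ) / N - c) := by
    rw [hconst _ (le_max_left _ _)]
    exact hx
  have h2 := h1.2.resolve_left hx0
  have h3 : (j1 : ℝ) ≤ ((max j0 j1 : ℕ) : ℝ) := by exact_mod_cast le_max_right j0 j1
  have h4 : (((max j0 j1 : ℕ) : ℝ) + 1) / N ≤ ω x + c := by linarith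
  rw [div_le_iff₀ hNR] at h4
  linarith

theorem SN_eq_sum (E : Submodule k K) {N : ℕ} (c : ℝ) {M : ℕ} (hM : ∀ j ≥ M, E ⊓ lev h (((j : ℝ) + 1) / N - c) = ⊥) :
    SN h N c E = ∑ j ∈ Finset.range M, finrank k (E ⊓ lev h (((j : ℝ) + 1) / N - c) : Submodule k K) := by
  rw [SN]
  refine finsum_eq_sum_of_support_subset _ ?_
  intro j hj
  rw [Function.mem_support] at hj
  rw [Finset.coe_range, Set.mem_Iio]
  by_contra h1
  apply hj
  rw [hM j (by omega), finrank_bot]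

theorem sum_le_SN (E : Submodule k K) [FiniteDimensional k E] {N : ℕ} (hN : 0 < N) (c : ℝ) (M : ℕ) :
    ∑ j ∈ Finset.range M, finrank k (E ⊓ lev h (((j : ℝ) + 1) / N - c) : Submodule k K) ≤ SN h N c E := by
  obtain ⟨M0, hM0⟩ := lev_bot h E hN c
  rw [SN_eq_sum h E c (M := max M M0) fun j hj => hM0 j ((le_max_right _ _).trans hj)]
  exact Finset.sum_le_sum_of_subset (Finset.range_mono (le_max_left _ _))

end lev

variable {I : Type*} [Fintype I]

/-- the flags of the valuations -/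
noncomputable def FF {ω : I → K → ℝ} (hω : ∀ i, RV k (ω i)) (N : ℕ) (c : I → ℝ) (i : I) (j : ℕ) : Submodule k K :=
  lev (hω i) ((j : ℝ) / N - c i)

section

variable {ω : I → K → ℝ} (hω : ∀ i, RV k (ω i)) (N : ℕ) (c : I → ℝ)

theorem FF_anti (i : I) (j j' : ℕ) (hj : j ≤ j') : FF hω N c i j' ≤ FF hω N c i j := by
  refine lev_anti _ ?_
  have h1 : (j : ℝ) ≤ j' := by exact_mod_cast hj
  have h2 : (j : ℝ) / N ≤ (j' : ℝ) / N := div_le_div_of_nonneg_right h1 (Nat.cast_nonneg N)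
  linarith

theorem FF_succ (i : I) (j : ℕ) (E : Submodule k K) :
    FF hω N c i (j + 1) ⊓ E = E ⊓ lev (hω i) (((j : ℝ) + 1) / N - c i) := by
  rw [FF, inf_comm]
  push_cast
  rfl

/-- the weight for all large `M` -/
theorem Sw_eq (V : Submodule k K) [FiniteDimensional k V] (hN : 0 < N) :
    ∃ M0 : ℕ, ∀ M ≥ M0, ∀ E ≤ V, Sw M (FF hω N c) E = ∑ i, SN (hω i) N (c i) E := by
  choose m hm using fun i => lev_bot (hω i) V hN (c i)
  refine ⟨∑ i, m i, fun M hM E hE => ?_⟩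
  refine Finset.sum_congr rfl fun i _ => ?_
  have h1 : m i ≤ M := (Finset.single_le_sum (fun i _ => Nat.zero_le (m i)) (Finset.mem_univ i)).trans hM
  rw [SN_eq_sum (hω i) E (c i) (M := M)]
  · exact Finset.sum_congr rfl fun j _ => by rw [FF_succ]
  · intro j hj
    rw [eq_bot_iff, ← hm i j (h1.trans hj)]
    exact inf_le_inf_right _ hE

theorem Sw_le_SN (E : Submodule k K) [FiniteDimensional k E] (hN : 0 < N) (M : ℕ) :
    Sw M (FF hω N c) E ≤ ∑ i, SN (hω i) N (c i) E := by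
  refine Finset.sum_le_sum fun i _ => ?_
  refine le_trans (le_of_eq ?_) (sum_le_SN (hω i) E hN (c i) M)
  exact Finset.sum_congr rfl fun j _ => by rw [FF_succ]

end

/-- the condition on the Taylor coefficients, in a form suitable for products -/
def Lr {ω : I → K → ℝ} (hω : ∀ i, RV k (ω i)) (N : ℕ) (t : I → k) (c : I → ℝ) (μ : ℝ) (u : K[X]) : Prop :=
  ∀ (i : I) (l : ℕ), tc (t i) l u ∈ lev (hω i) ((μ - l) / N - c i)

section

variable {ω : I → K → ℝ} {hω : ∀ i, RV k (ω i)} {N : ℕ} {t : I → k} {c c' : I → ℝ} {μ μ' : ℝ} {u v : K[X]}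

theorem Lr.mul (hN : 0 < N) (hu : Lr hω N t c μ u) (hv : Lr hω N t c' μ' v) :
    Lr hω N t (fun i => c i + c' i) (μ + μ') (u * v) := by
  have hNR : (0 : ℝ) < N := by exact_mod_cast hN
  intro i l
  rw [tc_mul]
  refine Submodule.sum_mem _ fun x hx => ?_
  have h1 := Finset.HasAntidiagonal.mem_antidiagonal.1 hx
  have h2 := lev_mul (hω i) (hu i x.1) (hv i x.2)
  refine lev_anti (hω i) (le_of_eq ?_) h2
  have h3 : (l : ℝ) = x.1 + x.2 := by exact_mod_cast h1.symm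
  rw [h3]
  ring

theorem Lr.one : Lr hω N t (fun _ => 0) 0 (1 : K[X]) := by
  intro i l
  rw [← C_1, tc_C]
  by_cases h : l = 0
  · rw [if_pos h, h]
    refine lev_anti (hω i) ?_ (one_lev (hω i))
    simp
  · rw [if_neg h]
    exact zero_mem _

theorem Lr.pow (hN : 0 < N) {Z : Set K[X]} (hZ : ∀ z ∈ Z, Lr hω N t c μ z) (m : ℕ) :
    ∀ z ∈ Z ^ m, Lr hω N t (fun i => m * c i) (m * μ) z := by
  induction m with
  | zero =>
    intro z hz
    rw [pow_zero, Set.mem_one] at hz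
    rw [hz]
    simpa using (Lr.one (hω := hω) (N := N) (t := t))
  | succ m ih =>
    intro z hz
    rw [pow_succ] at hz
    obtain ⟨a, ha, b, hb, rfl⟩ := Set.mem_mul.1 hz
    have h1 := (ih a ha).mul hN (hZ b hb)
    have h2 : (fun i => (m : ℝ) * c i + c i) = fun i => ((m + 1 : ℕ) : ℝ) * c i := by
      funext i
      push_cast
      ring
    have h3 : (m : ℝ) * μ + μ = ((m + 1 : ℕ) : ℝ) * μ := by
      push_cast
      ring
    rwa [h2, h3] at h1

theorem Lr.of_mem {V : Submodule k K} (h0 : ∀ i, ∀ x ∈ V, x ≠ 0 → 0 ≤ ω i x + c i) {M n : ℕ} {u : K[X]}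
    (hu : u ∈ W t M (FF hω N c) V n) : Lr hω N t c M u := by
  intro i l
  by_cases hl : l < M
  · have h1 := hu.1 i l hl
    rw [FF, Nat.cast_sub hl.le] at h1
    exact h1
  · by_cases h2 : tc (t i) l u = 0
    · rw [h2]
      exact zero_mem _
    · refine Or.inr ?_
      have h3 := h0 i _ (tc_mem hu.2.1 (t i) l) h2
      have h4 : ((M : ℝ) - l) / N ≤ 0 := by
        apply div_nonpos_of_nonpos_of_nonneg _ (Nat.cast_nonneg N)
        have : (M : ℝ) ≤ l := by exact_mod_cast (by omega : M ≤ l)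
        linarith
      linarith

theorem Lr.lat {M : ℕ} {u : K[X]} (hu : Lr hω N t c M u) : u ∈ Lat t M (FF hω N c) := by
  intro i l hl
  rw [FF, Nat.cast_sub hl.le]
  exact hu i l

end

/-! ### degrees -/

theorem PV_mul {V V' : Submodule k K} {d d' : ℕ} {u v : K[X]} (hu : u ∈ PV V (d + 1)) (hv : v ∈ PV V' (d' + 1)) :
    u * v ∈ PV (V * V') (d + d' + 1) := by
  refine ⟨fun a => ?_, fun a ha => ?_⟩
  · rw [coeff_mul]
    exact Submodule.sum_mem _ fun x _ => Submodule.mul_mem_mul (hu.1 _) (hv.1 _)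
  · rw [coeff_mul]
    refine Finset.sum_eq_zero fun x hx => ?_
    have h1 := Finset.HasAntidiagonal.mem_antidiagonal.1 hx
    by_cases h2 : d + 1 ≤ x.1
    · rw [hu.2 _ h2, zero_mul]
    · rw [hv.2 x.2 (by omega), mul_zero]

theorem PV_pow {V : Submodule k K} {d : ℕ} {Z : Set K[X]} (hZ : ∀ z ∈ Z, z ∈ PV V (d + 1)) (m : ℕ) :
    ∀ z ∈ Z ^ m, z ∈ PV (V ^ m) (m * d + 1) := by
  induction m with
  | zero =>
    intro z hz
    rw [pow_zero, Set.mem_one] at hz
    rw [hz, pow_zero]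
    refine ⟨fun a => ?_, fun a ha => ?_⟩
    · rw [coeff_one]
      split_ifs
      · exact Submodule.one_le.1 le_rfl
      · exact zero_mem _
    · rw [coeff_one, if_neg (by omega)]
  | succ m ih =>
    intro z hz
    rw [pow_succ] at hz
    obtain ⟨a, ha, b, hb, rfl⟩ := Set.mem_mul.1 hz
    have h1 := PV_mul (ih a ha) (hZ b hb)
    rw [pow_succ]
    have h2 : (m + 1) * d + 1 = m * d + d + 1 := by ring
    rw [h2]
    exact h1

theorem finite_pow {Z : Set K[X]} (hZ : Z.Finite) (m : ℕ) : (Z ^ m).Finite := by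
  induction m with
  | zero =>
    rw [pow_zero]
    exact Set.finite_one
  | succ m ih =>
    rw [pow_succ]
    exact ih.mul hZ

/-- **Semistability of tensor products.** -/
theorem ten [CharZero k] (ω : I → K → ℝ) (hω : ∀ i, RV k (ω i)) (c c' : I → ℝ)
    (V V' : Submodule k K) [FiniteDimensional k V] [FiniteDimensional k V'] (hV : V ≠ ⊥) (hr : finrank k V' = finrank k V)
    {N : ℕ} (hN : 0 < N) (ha : ∀ i, ∀ x ∈ V, x ≠ 0 → 0 ≤ ω i x + c i) (ha' : ∀ i, ∀ x ∈ V', x ≠ 0 → 0 ≤ ω i x + c' i) (T : ℕ)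
    (hT : ∑ i, SN (hω i) N (c i) V = T) (hT' : ∑ i, SN (hω i) N (c' i) V' = T)
    (hss : ∀ E ≤ V, finrank k V * ∑ i, SN (hω i) N (c i) E ≤ T * finrank k E)
    (hss' : ∀ E ≤ V', finrank k V * ∑ i, SN (hω i) N (c' i) E ≤ T * finrank k E) (m : ℕ) :
    2 * m * finrank k ↥(V ^ m * V' ^ m) * T ≤
      finrank k V * (∑ i, SN (hω i) N (m * (c i + c' i)) (V ^ m * V' ^ m)) +
      2 * m * finrank k ↥(V ^ m * V' ^ m) * (finrank k V * (finrank k V * Fintype.card I + 1)) := by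
  classical
  obtain ⟨t, ht⟩ : ∃ t : I → k, Function.Injective t := by
    refine ⟨fun i => ((Fintype.equivFin I i : ℕ) : k), fun i j hij => ?_⟩
    have h1 : ((Fintype.equivFin I i : Fin _) : ℕ) = (Fintype.equivFin I j : Fin _) := Nat.cast_injective hij
    exact (Fintype.equivFin I).injective (Fin.ext h1)
  obtain ⟨r, hrr⟩ : ∃ r, r = finrank k V := ⟨_, rfl⟩
  have hr0 : 0 < r := by
    rw [hrr, Module.finrank_pos_iff_exists_ne_zero]
    obtain ⟨x, hx, hx0⟩ := Submodule.exists_mem_ne_zero_of_ne_bot hV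
    exact ⟨⟨x, hx⟩, fun h => hx0 (congrArg Subtype.val h)⟩
  obtain ⟨M1, hM1⟩ := Sw_eq hω N c V hN
  obtain ⟨M2, hM2⟩ := Sw_eq hω N c' V' hN
  obtain ⟨M, hM⟩ : ∃ M, M = max M1 M2 := ⟨_, rfl⟩
  have s1 := hM1 M (by rw [hM]; exact le_max_left _ _)
  have s2 := hM2 M (by rw [hM]; exact le_max_right _ _)
  obtain ⟨n1, α1, f1, g1, hg1, -, hc1, hd1⟩ := bal' (F := FF hω N c) (M := M) (U := V) ht (FF_anti hω N c)
    (by rw [← hrr]; exact hr0) (fun E hE => by
      rw [s1 E hE, s1 V le_rfl, hT]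
      exact hss E hE)
  obtain ⟨n2, α2, f2, g2, hg2, -, hc2, hd2⟩ := bal' (F := FF hω N c') (M := M) (U := V') ht (FF_anti hω N c')
    (by rw [hr, ← hrr]; exact hr0) (fun E hE => by
      rw [s2 E hE, s2 V' le_rfl, hT', hr]
      exact hss' E hE)
  rw [s1 V le_rfl, hT, ← hrr] at hd1
  rw [s2 V' le_rfl, hT', hr, ← hrr] at hd2
  obtain ⟨R, hR⟩ : ∃ R, R = V ^ m * V' ^ m := ⟨_, rfl⟩
  rw [← hR, ← hrr]
  have hfg : R.FG := by
    rw [hR]
    exact ((Module.Finite.iff_fg.1 (inferInstance : FiniteDimensional k V)).pow m).mul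
      ((Module.Finite.iff_fg.1 (inferInstance : FiniteDimensional k V')).pow m)
  have : FiniteDimensional k R := Module.Finite.iff_fg.2 hfg
  obtain ⟨Z, hZ⟩ : ∃ Z, Z = Set.range g1 ^ m * Set.range g2 ^ m := ⟨_, rfl⟩
  have hfin : Z.Finite := by
    rw [hZ]
    exact (finite_pow (Set.finite_range g1) m).mul (finite_pow (Set.finite_range g2) m)
  have hc : R ≤ cs k Z := by
    rw [hR, hZ]
    refine (mul_le_mul' (cs_pow ?_ m) (cs_pow ?_ m)).trans (cs_mul _ _)
    · exact fun x hx => hc1 x hx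
    · exact fun x hx => hc2 x hx
  have hmem : ∀ z ∈ Z, z ∈ W t (2 * m * M) (FF hω N fun i => m * (c i + c' i)) R (m * n1 + m * n2 + 1) := by
    intro z hz
    rw [hZ] at hz
    obtain ⟨a, ha1, b, hb1, rfl⟩ := Set.mem_mul.1 hz
    constructor
    · have h1 := Lr.pow (hω := hω) (t := t) (c := c) (μ := M) hN (Z := Set.range g1) (by
        rintro _ ⟨j, rfl⟩
        exact Lr.of_mem ha (hg1.mem j)) m a ha1
      have h2 := Lr.pow (hω := hω) (t := t) (c := c') (μ := M) hN (Z := Set.range g2) (by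
        rintro _ ⟨j, rfl⟩
        exact Lr.of_mem ha' (hg2.mem j)) m b hb1
      have h3 := h1.mul hN h2
      have h4 : (fun i => (m : ℝ) * c i + m * c' i) = fun i => (m : ℝ) * (c i + c' i) := by
        funext i
        ring
      have h5 : (m : ℝ) * M + m * M = ((2 * m * M : ℕ) : ℝ) := by
        push_cast
        ring
      rw [h4, h5] at h3
      exact h3.lat
    · rw [hR]
      refine PV_mul (PV_pow ?_ m a ha1) (PV_pow ?_ m b hb1)
      · rintro _ ⟨j, rfl⟩
        exact (hg1.mem j).2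
      · rintro _ ⟨j, rfl⟩
        exact (hg2.mem j).2
  have key := count ht (FF_anti hω N fun i => m * (c i + c' i)) hfin hmem hc
  have hSw := Sw_le_SN hω N (fun i => m * (c i + c' i)) R hN (2 * m * M)
  obtain ⟨D, hD⟩ : ∃ D, D = finrank k R := ⟨_, rfl⟩
  obtain ⟨S, hS⟩ : ∃ S, S = ∑ i, SN (hω i) N (m * (c i + c' i)) R := ⟨_, rfl⟩
  obtain ⟨q, hq⟩ : ∃ q, q = Fintype.card I := ⟨_, rfl⟩
  rw [← hS] at hSw ⊢
  rw [← hD, ← hq] at key
  rw [← hq] at hd1 hd2
  rw [← hD, ← hq]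
  have k1 : q * (2 * m * M) * D ≤ (m * n1 + m * n2) * D + S := key.trans (Nat.add_le_add_left hSw _)
  have k2 := Nat.mul_le_mul_left r k1
  have k3 := Nat.mul_le_mul_left (m * D) hd1
  have k4 := Nat.mul_le_mul_left (m * D) hd2
  nlinarith

end SQ24
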