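import Pool.Agent.Helper24.SQ.TenG

/-!
Semistability of tensor products for arbitrary filtrations.
-/

set_option linter.unusedSectionVars false

open Polynomial Module Pointwise

namespace SQ24

variable {k K : Type*} [Field k] [Field K] [Algebra k K]

attribute [local instance] Polynomial.algebra

variable {I : Type*} [Fintype I] {A : Type*}

/-- the filtration which is generated by products -/
def Gen (V : A → Submodule k K) (F : A → ℕ → Submodule k K) (s : Finset A) (L : ℕ) : Submodule k K :=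
  ⨆ (j : A → ℕ) (_ : L ≤ ∑ x ∈ s, j x), ∏ x ∈ s, (V x ⊓ F x (j x))

theorem Gen_anti (V : A → Submodule k K) (F : A → ℕ → Submodule k K) (s : Finset A) {L L' : ℕ} (h : L' ≤ L) :
    Gen V F s L ≤ Gen V F s L' :=
  iSup_mono fun _ => iSup_le fun h1 => le_iSup_of_le (h.trans h1) le_rfl

theorem Gen_insert [DecidableEq A] (V : A → Submodule k K) (F : A → ℕ → Submodule k K) {s : Finset A} {y : A} (hy : y ∉ s)
    (L a : ℕ) : (V y ⊓ F y a) * Gen V F s L ≤ Gen V F (insert y s) (a + L) := by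
  rw [Gen, Submodule.mul_iSup]
  refine iSup_le fun j => ?_
  rw [Submodule.mul_iSup]
  refine iSup_le fun h => ?_
  have h1 : ∏ x ∈ insert y s, (V x ⊓ F x (Function.update j y a x)) = (V y ⊓ F y a) * ∏ x ∈ s, (V x ⊓ F x (j x)) := by
    rw [Finset.prod_insert hy, Function.update_self]
    congr 1
    refine Finset.prod_congr rfl fun x hx => ?_
    rw [Function.update_of_ne (by rintro rfl; exact hy hx)]
  have h2 : a + L ≤ ∑ x ∈ insert y s, Function.update j y a x := by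
    rw [Finset.sum_insert hy, Function.update_self]
    refine Nat.add_le_add_left (h.trans (le_of_eq ?_)) _
    refine Finset.sum_congr rfl fun x hx => ?_
    rw [Function.update_of_ne (by rintro rfl; exact hy hx)]
  rw [← h1]
  exact le_iSup₂_of_le (f := fun (j : A → ℕ) (_ : a + L ≤ ∑ x ∈ insert y s, j x) => ∏ x ∈ insert y s, (V x ⊓ F x (j x)))
    (Function.update j y a) h2 le_rfl

/-- **Semistability of tensor products**, arbitrary filtrations. -/
theorem tenA [CharZero k] [Fintype A] (V : A → Submodule k K) [∀ x, FiniteDimensional k (V x)] (hV : ∀ x, V x ≠ ⊥)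
    (F : A → I → ℕ → Submodule k K) (hF : ∀ x i, Antitone (F x i)) (h0 : ∀ x i, V x ≤ F x i 0) (M : A → ℕ)
    (hss : ∀ x, ∀ E ≤ V x, finrank k (V x) * Sw (M x) (F x) E ≤ Sw (M x) (F x) (V x) * finrank k E)
    (Φ : I → ℕ → Submodule k K) (hΦ : ∀ i, Antitone (Φ i))
    (hp : ∀ (i : I) (j : A → ℕ), ∏ x, (V x ⊓ F x i (j x)) ≤ Φ i (∑ x, j x)) :
    (finrank k ↥(∏ x, V x) : ℝ) * ∑ x, (Sw (M x) (F x) (V x) : ℝ) / finrank k (V x) ≤
      Sw (∑ x, M x) Φ (∏ x, V x) +
      finrank k ↥(∏ x, V x) * ∑ x, ((finrank k (V x) : ℝ) * Fintype.card I + 1) := by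
  classical
  obtain ⟨t, ht⟩ : ∃ t : I → k, Function.Injective t := by
    refine ⟨fun i => ((Fintype.equivFin I i : ℕ) : k), fun i j hij => ?_⟩
    have h1 : ((Fintype.equivFin I i : Fin _) : ℕ) = (Fintype.equivFin I j : Fin _) := Nat.cast_injective hij
    exact (Fintype.equivFin I).injective (Fin.ext h1)
  obtain ⟨r, hrr⟩ : ∃ r : A → ℕ, ∀ x, r x = finrank k (V x) := ⟨_, fun _ => rfl⟩
  have hr0 : ∀ x, 0 < r x := by
    intro x
    rw [hrr, Module.finrank_pos_iff_exists_ne_zero]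
    obtain ⟨y, hy, hy0⟩ := Submodule.exists_mem_ne_zero_of_ne_bot (hV x)
    exact ⟨⟨y, hy⟩, fun h => hy0 (congrArg Subtype.val h)⟩
  -- balanced bases
  have step : ∀ x, ∃ (n : ℕ) (Z : Set K[X]), Z.Finite ∧ (∀ z ∈ Z, ∀ i l, tc (t i) l z ∈ V x ⊓ F x i (M x - l)) ∧
      (∀ z ∈ Z, z ∈ PV (V x) (n + 1)) ∧ V x ≤ cs k Z ∧
      r x * n + Sw (M x) (F x) (V x) ≤ r x * (Fintype.card I * M x + r x * Fintype.card I + 1) := by
    intro x
    obtain ⟨n1, α1, f1, g1, hg1, -, hc1, hd1⟩ := bal' (F := F x) (M := M x) (U := V x) ht (fun i j j' hj => hF x i hj)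
      (by rw [← hrr]; exact hr0 x) (hss x)
    rw [← hrr] at hd1
    refine ⟨n1, Set.range g1, Set.finite_range _, ?_, ?_, fun y hy => hc1 y hy, hd1⟩
    · rintro _ ⟨j, rfl⟩ i l
      refine ⟨tc_mem (hg1.mem j).2.1 _ _, ?_⟩
      by_cases hl : l < M x
      · exact (hg1.mem j).1 i l hl
      · rw [Nat.sub_eq_zero_of_le (not_lt.1 hl)]
        exact h0 x i (tc_mem (hg1.mem j).2.1 _ _)
    · rintro _ ⟨j, rfl⟩
      exact (hg1.mem j).2
  choose n Z hZ1 hZ2 hZ3 hZ4 hZ5 using step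
  -- products
  have prd : ∀ s : Finset A, ∃ Y : Set K[X], Y.Finite ∧
      (∀ z ∈ Y, ∀ i l, tc (t i) l z ∈ Gen V (fun x => F x i) s (∑ x ∈ s, M x - l)) ∧
      (∀ z ∈ Y, z ∈ PV (∏ x ∈ s, V x) (∑ x ∈ s, n x + 1)) ∧ ∏ x ∈ s, V x ≤ cs k Y := by
    intro s
    induction s using Finset.induction_on with
    | empty =>
      refine ⟨{1}, Set.finite_singleton _, ?_, ?_, ?_⟩
      · rintro z rfl i l
        have h1 : (1 : Submodule k K) ≤ Gen V (fun x => F x i) ∅ (∑ x ∈ (∅ : Finset A), M x - l) := by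
          refine le_iSup₂_of_le (fun _ => 0) (by simp) ?_
          rw [Finset.prod_empty]
        apply h1
        rw [← C_1, tc_C]
        split_ifs
        · exact Submodule.one_le.1 le_rfl
        · exact zero_mem _
      · rintro z rfl
        have := PV_pow (k := k) (K := K) (V := ⊥) (d := 0) (Z := ∅) (by simp) 0 1 (by simp)
        simpa using this
      · have := cs_pow (k := k) (K := K) (U := ⊥) (Z := ∅) bot_le 0
        rw [pow_zero, pow_zero] at this
        rwa [Finset.prod_empty, Set.singleton_one]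
    | insert y s hys ih =>
      obtain ⟨Y, h1, h2, h3, h4⟩ := ih
      refine ⟨Z y * Y, (hZ1 y).mul h1, ?_, ?_, ?_⟩
      · intro z hz i l
        obtain ⟨a, ha1, b, hb1, rfl⟩ := Set.mem_mul.1 hz
        rw [tc_mul]
        refine Submodule.sum_mem _ fun p hp => ?_
        have h5 := Finset.HasAntidiagonal.mem_antidiagonal.1 hp
        have h6 := Gen_insert V (fun x => F x i) hys _ _ (Submodule.mul_mem_mul (hZ2 y a ha1 i p.1) (h2 b hb1 i p.2))
        refine Gen_anti _ _ _ ?_ h6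
        rw [Finset.sum_insert hys]
        omega
      · intro z hz
        obtain ⟨a, ha1, b, hb1, rfl⟩ := Set.mem_mul.1 hz
        rw [Finset.prod_insert hys, Finset.sum_insert hys]
        exact PV_mul (hZ3 y a ha1) (h3 b hb1)
      · rw [Finset.prod_insert hys]
        exact (mul_le_mul' (hZ4 y) h4).trans (cs_mul _ _)
  obtain ⟨Y, h1, h2, h3, h4⟩ := prd Finset.univ
  obtain ⟨R, hR⟩ : ∃ R, R = ∏ x, V x := ⟨_, rfl⟩
  rw [← hR] at h3 h4 ⊢
  have hfg : ∀ s : Finset A, (∏ x ∈ s, V x).FG := by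
    intro s
    induction s using Finset.induction_on with
    | empty =>
      rw [Finset.prod_empty]
      exact ⟨{1}, by rw [Finset.coe_singleton, Submodule.one_eq_span]⟩
    | insert y s hys ih =>
      rw [Finset.prod_insert hys]
      exact (Module.Finite.iff_fg.1 (inferInstance : FiniteDimensional k (V y))).mul ih
  have hRfg : R.FG := by
    rw [hR]
    exact hfg _
  have : FiniteDimensional k R := Module.Finite.iff_fg.2 hRfg
  have hmem : ∀ z ∈ Y, z ∈ W t (∑ x, M x) Φ R (∑ x, n x + 1) := by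
    refine fun z hz => ⟨fun i l _ => ?_, h3 z hz⟩
    have h5 : Gen V (fun x => F x i) Finset.univ (∑ x, M x - l) ≤ Φ i (∑ x, M x - l) :=
      iSup₂_le fun j hj => (hp i j).trans (hΦ i hj)
    exact h5 (h2 z hz i l)
  have key := count ht (fun i j j' hj => hΦ i hj) h1 hmem h4
  obtain ⟨D, hD⟩ : ∃ D, D = finrank k R := ⟨_, rfl⟩
  obtain ⟨S, hS⟩ : ∃ S, S = Sw (∑ x, M x) Φ R := ⟨_, rfl⟩
  obtain ⟨q, hq⟩ : ∃ q, q = Fintype.card I := ⟨_, rfl⟩
  rw [← hS, ← hD, ← hq]
  rw [← hS, ← hD, ← hq] at key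
  have k2 : (q : ℝ) * (∑ x, (M x : ℝ)) * D ≤ (∑ x, (n x : ℝ)) * D + S := by exact_mod_cast key
  have k3 : ∀ x, (n x : ℝ) + (Sw (M x) (F x) (V x) : ℝ) / finrank k (V x) ≤ q * M x + (finrank k (V x) * q + 1) := by
    intro x
    have hr1 : (0 : ℝ) < finrank k (V x) := by
      rw [← hrr]
      exact_mod_cast hr0 x
    have h5 := hZ5 x
    rw [hrr, ← hq] at h5
    have h6 : (finrank k (V x) : ℝ) * n x + (Sw (M x) (F x) (V x) : ℝ) ≤
        finrank k (V x) * (q * M x + finrank k (V x) * q + 1) := by exact_mod_cast h5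
    have h7 : (n x : ℝ) + (Sw (M x) (F x) (V x) : ℝ) / finrank k (V x) =
        (finrank k (V x) * n x + (Sw (M x) (F x) (V x) : ℝ)) / finrank k (V x) := by
      field_simp
    rw [h7, div_le_iff₀ hr1]
    linarith
  have k4 := Finset.sum_le_sum fun x (_ : x ∈ Finset.univ) => k3 x
  rw [Finset.sum_add_distrib, Finset.sum_add_distrib, ← Finset.mul_sum] at k4
  have k7 := mul_le_mul_of_nonneg_left k4 (Nat.cast_nonneg (α := ℝ) D)
  linarith

/-- The form with exponents. -/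
theorem tenAm [CharZero k] [Fintype A] (V : A → Submodule k K) [∀ x, FiniteDimensional k (V x)] (hV : ∀ x, V x ≠ ⊥)
    (F : A → I → ℕ → Submodule k K) (hF : ∀ x i, Antitone (F x i)) (h0 : ∀ x i, V x ≤ F x i 0) (M : A → ℕ)
    (hss : ∀ x, ∀ E ≤ V x, finrank k (V x) * Sw (M x) (F x) E ≤ Sw (M x) (F x) (V x) * finrank k E) (m : A → ℕ)
    (Φ : I → ℕ → Submodule k K) (hΦ : ∀ i, Antitone (Φ i))
    (hp : ∀ (i : I) (j : (x : A) → Fin (m x) → ℕ), ∏ x, ∏ a, (V x ⊓ F x i (j x a)) ≤ Φ i (∑ x, ∑ a, j x a)) :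
    (finrank k ↥(∏ x, V x ^ m x) : ℝ) * ∑ x, m x * ((Sw (M x) (F x) (V x) : ℝ) / finrank k (V x)) ≤
      Sw (∑ x, m x * M x) Φ (∏ x, V x ^ m x) +
      finrank k ↥(∏ x, V x ^ m x) * ∑ x, m x * ((finrank k (V x) : ℝ) * Fintype.card I + 1) := by
  have h1 := tenA (A := Σ x : A, Fin (m x)) (fun y => V y.1) (fun y => hV y.1) (fun y => F y.1) (fun y => hF y.1)
    (fun y => h0 y.1) (fun y => M y.1) (fun y => hss y.1) Φ hΦ (fun i j => by
      have h2 := hp i fun x a => j ⟨x, a⟩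
      rw [Fintype.prod_sigma, Fintype.sum_sigma]
      exact h2)
  have e1 : ∏ y : (Σ x : A, Fin (m x)), V y.1 = ∏ x, V x ^ m x := by
    rw [Fintype.prod_sigma]
    simp
  have e2 : ∑ y : (Σ x : A, Fin (m x)), M y.1 = ∑ x, m x * M x := by
    rw [Fintype.sum_sigma]
    simp
  have e3 : ∑ y : (Σ x : A, Fin (m x)), (Sw (M y.1) (F y.1) (V y.1) : ℝ) / finrank k (V y.1) =
      ∑ x, m x * ((Sw (M x) (F x) (V x) : ℝ) / finrank k (V x)) := by
    rw [Fintype.sum_sigma]
    refine Finset.sum_congr rfl fun x _ => ?_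
    rw [Finset.sum_const (s := (Finset.univ : Finset (Fin (m x)))) ((Sw (M x) (F x) (V x) : ℝ) / finrank k (V x)),
      Finset.card_univ, Fintype.card_fin, nsmul_eq_mul]
  have e4 : ∑ y : (Σ x : A, Fin (m x)), ((finrank k (V y.1) : ℝ) * Fintype.card I + 1) =
      ∑ x, m x * ((finrank k (V x) : ℝ) * Fintype.card I + 1) := by
    rw [Fintype.sum_sigma]
    refine Finset.sum_congr rfl fun x _ => ?_
    rw [Finset.sum_const (s := (Finset.univ : Finset (Fin (m x)))) ((finrank k (V x) : ℝ) * Fintype.card I + 1),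
      Finset.card_univ, Fintype.card_fin, nsmul_eq_mul]
  rw [e1, e2, e3, e4] at h1
  exact h1

end SQ24
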